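import Pool.Agent.T9h58.KO.K6
import Pool.Agent.N639.FH.FinQ

/-!
# The digits of `l p ^ n` at the places up to `(log M) ^ (1 + δ)`, `δ < 1 / 2`: all tests with boundedly many words
-/

set_option autoImplicit false

namespace Pool.Agent.T9h58.KO

open Finset Real MeasureTheory Pool.Agent.Y933.KD Filter Topology
open Pool.Agent.N639.FS Pool.Agent.N639.FG Pool.Agent.N639.FH
open Pool.Agent.Y933.KE (WE smear meas_map smear_prob wd_smear real_smear measurableSet_WE WE_eq)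

lemma hlog : Tendsto (fun M : ℕ => log (M : ℝ)) atTop atTop :=
  Real.tendsto_log_atTop.comp tendsto_natCast_atTop_atTop

/-- the laws of the digits of `l p ^ n`, `n < M`, at the places `s, …, s + J - 1` -/
def SLk (p q : ℕ) (δ₀ δ C : ℝ) (M : ℕ) : Set (Measure ℝ) :=
  {P | ∃ l s J : ℕ, ¬ q ∣ l ∧ δ₀ * log M ≤ s ∧ (s : ℝ) + J ≤ C * (log M) ^ (1 + δ) ∧
    P = smear (range M) (fun n => l * p ^ n / q ^ s) q J}

lemma SLk_prob (p q : ℕ) (δ₀ δ C : ℝ) (M : ℕ) (hM : 1 ≤ M) (P : Measure ℝ) (hP : P ∈ SLk p q δ₀ δ C M) :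
    IsProbabilityMeasure P := by
  obtain ⟨l, s, J, _, _, _, rfl⟩ := hP
  exact smear_prob ⟨0, mem_range.2 (by omega)⟩ _ _ _

/-- the exponential sums -/
lemma hat_low2 {p q : ℕ} (hp : 2 ≤ p) (hq : q.Prime) (hpq : ¬ q ∣ p) {δ₀ : ℝ} (hδ₀ : 0 < δ₀)
    {δ β : ℝ} (hδ : 0 < δ) (hβ : 0 < β) (hδβ : 2 * δ + 2 * β < 1) (C : ℝ)
    (k : ℕ) : ∃ M0 : ℕ, ∀ M : ℕ, M0 ≤ M → ∀ l s J : ℕ, ¬ q ∣ l →
      δ₀ * log M ≤ s → (s : ℝ) + J ≤ C * (log M) ^ (1 + δ) → ∀ (n : Fin k → ℕ) (h : Fin k → ℤ),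
      (∀ i, n i ≤ J) → (∀ i, |(h i : ℝ)| ≤ exp ((log M) ^ β)) → ∑ i, h i * (q : ℤ) ^ n i ≠ 0 →
      ‖hat (unif (range M) (fun m => ((l * p ^ m : ℕ) : ℝ) / (q : ℝ) ^ (s + J)))
        (∑ i, h i * (q : ℤ) ^ n i)‖ ≤ exp (-(log M) ^ β) := by
  have hqR : (2 : ℝ) ≤ q := by exact_mod_cast hq.two_le
  have hq0 : (0 : ℝ) < q := by linarith
  have hq1 : (1 : ℝ) < q := by linarith
  obtain ⟨lq, hlqd⟩ : ∃ lq, lq = log (q : ℝ) := ⟨_, rfl⟩
  have hlq : 0 < lq := by rw [hlqd]; exact Real.log_pos hq1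
  -- a slightly larger exponent
  obtain ⟨δ', hδ'⟩ : ∃ δ', δ' = δ + β / 4 := ⟨_, rfl⟩
  obtain ⟨M1, hsum⟩ := korobov hq hp hpq (δ₀ := δ₀ / 2) (δ := δ') (β := β) (by positivity)
    (by rw [hδ']; positivity) hβ (by rw [hδ']; linarith)
  have e1 := ev_pow (a := β) (b := 1) (c := δ₀ * lq / 4) (by linarith) (by positivity) 1
  have e2 := ev_pow (a := 0) (b := 1) (c := δ₀ * lq / 4) one_pos (by positivity) (log k)
  have e3 := ev_pow (a := 1 + δ) (b := 1 + δ') (c := 1) (by rw [hδ']; linarith) one_pos C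
  obtain ⟨M0, hM0⟩ := eventually_atTop.1 ((hlog.eventually (e1.and (e2.and e3))).and
    ((eventually_ge_atTop (max M1 1)).and (hlog.eventually_gt_atTop 0)))
  refine ⟨M0, fun M hM l s J hl hs hsJ n h hn hh hne => ?_⟩
  obtain ⟨⟨m1, m2, m3⟩, m4, m5⟩ := hM0 M hM
  have hM1 : M1 ≤ M := (le_max_left _ _).trans m4
  have hM1' : 1 ≤ M := (le_max_right _ _).trans m4
  have hMp : (0 : ℝ) < M := by exact_mod_cast hM1'
  rw [Real.rpow_one] at m1 m2
  rw [Real.rpow_zero] at m2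
  set H : ℤ := ∑ i, h i * (q : ℤ) ^ n i with hH
  obtain ⟨v, A, hA, hv⟩ := exists_val hq hne
  have hk : 0 < k := by
    rcases Nat.eq_zero_or_pos k with h0 | h0
    · exfalso
      subst h0
      apply hne
      rw [hH]
      simp
    · exact h0
  have hkR : (0 : ℝ) < k := by exact_mod_cast hk
  -- the size
  have h1 : |(H : ℝ)| ≤ k * (exp ((log M) ^ β) * (q : ℝ) ^ J) := by
    rw [hH]
    push_cast
    refine (abs_sum_le_sum_abs _ _).trans ?_
    refine (sum_le_card_nsmul _ _ (exp ((log M) ^ β) * (q : ℝ) ^ J) fun i _ => ?_).trans ?_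
    · rw [abs_mul, abs_of_nonneg (by positivity : (0 : ℝ) ≤ (q : ℝ) ^ n i)]
      have := hh i
      have h2 : (q : ℝ) ^ n i ≤ (q : ℝ) ^ J := pow_le_pow_right₀ hq1.le (hn i)
      gcongr
    · rw [card_univ, Fintype.card_fin, nsmul_eq_mul]
  have h2 : (q : ℝ) ^ v ≤ |(H : ℝ)| := by
    rw [hv]
    push_cast
    rw [abs_mul, abs_of_nonneg (by positivity : (0 : ℝ) ≤ (q : ℝ) ^ v)]
    refine le_mul_of_one_le_right (by positivity) ?_
    have : 1 ≤ |A| := Int.one_le_abs (fun h => by rw [h] at hA; exact hA (dvd_zero _))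
    exact_mod_cast this
  have h3 : (v : ℝ) * lq ≤ log k + (log M) ^ β + J * lq := by
    have h4 := Real.log_le_log (by positivity) (h2.trans h1)
    rw [Real.log_pow, Real.log_mul hkR.ne' (by positivity), Real.log_mul (by positivity)
      (by positivity), Real.log_exp, Real.log_pow, ← hlqd] at h4
    linarith
  have h4 : (v : ℝ) ≤ J + δ₀ / 2 * log M := by
    have h5 : (v : ℝ) * lq ≤ (J + δ₀ / 2 * log M) * lq := by linarith
    exact le_of_mul_le_mul_right h5 hlq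
  have hvs : v ≤ s + J := by
    have h5 : (v : ℝ) ≤ s + J := by
      have : δ₀ / 2 * log M ≤ δ₀ * log M := by nlinarith
      linarith
    exact_mod_cast h5
  set ι : ℕ := s + J - v with hι
  have hιR : (ι : ℝ) = s + J - v := by
    rw [hι, Nat.cast_sub hvs]
    push_cast
    ring
  have key := hsum M hM1 ι (by rw [hιR]; linarith) (by
      rw [hιR]
      have : (0 : ℝ) ≤ v := Nat.cast_nonneg v
      linarith) (A * l) (by
      intro hd
      rcases (Nat.prime_iff_prime_int.1 hq).dvd_or_dvd hd with hd | hd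
      · exact hA hd
      · exact hl (by exact_mod_cast hd))
  have e1 : ∀ m : ℕ, e (((H : ℤ) : ℝ) * (((l * p ^ m : ℕ) : ℝ) / (q : ℝ) ^ (s + J))) =
      Pool.Agent.Helper602.MK.ee (((A * l : ℤ) : ℝ) * (p : ℝ) ^ m / (q : ℝ) ^ ι) := by
    intro m
    rw [e_ee]
    congr 1
    rw [hv]
    have h5 : (q : ℝ) ^ (s + J) = (q : ℝ) ^ ι * (q : ℝ) ^ v := by
      rw [← pow_add]; congr 1; omega
    rw [h5]
    push_cast
    field_simp
  unfold hat
  rw [integral_unif]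
  simp only [e1]
  rw [norm_mul, norm_div, norm_one, Complex.norm_natCast, card_range, one_div,
    inv_mul_le_iff₀ hMp]
  exact key

/-- the tests on words of the digits -/
theorem low_words2 {p q : ℕ} (hp : 2 ≤ p) (hq : q.Prime) (hpq : ¬ q ∣ p) {δ₀ : ℝ} (hδ₀ : 0 < δ₀)
    {δ β : ℝ} (hδ : 0 < δ) (hβ : 0 < β) (hδβ : 2 * δ + 2 * β < 1) (C : ℝ) (k : ℕ) :
    ∃ M0 : ℕ, ∀ M : ℕ, M0 ≤ M → ∀ l s J : ℕ,
      ¬ q ∣ l → δ₀ * log M ≤ s → (s : ℝ) + J ≤ C * (log M) ^ (1 + δ) → ∀ n w c : Fin k → ℕ,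
      (∀ i, n i + w i ≤ J) →
      |(((range M).filter (fun m => ∀ r, l * p ^ m / q ^ s / q ^ (J - (n r + w r)) % q ^ (w r) =
        c r)).card : ℝ) / (range M).card - Leb.real (WE q n w c)| ≤
          (3 ^ k + k * 29) * exp (-((log M) ^ β / (3 * k + 4))) := by
  obtain ⟨M0, hM0⟩ := hat_low2 hp hq hpq hδ₀ hδ hβ hδβ C k
  have hq1 : 1 ≤ q := hq.one_lt.le
  have hq0 : (0 : ℝ) < q := by exact_mod_cast hq.pos
  refine ⟨max M0 1, fun M hM l s J hl hs hsJ n w c hn => ?_⟩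
  have hM1 : 1 ≤ M := le_of_max_le_right hM
  have hMp : (0 : ℝ) < M := by exact_mod_cast hM1
  have hlM : 0 ≤ log (M : ℝ) := Real.log_natCast_nonneg M
  have hpos : (0 : ℝ) ≤ (3 ^ k + (k : ℝ) * 29) * exp (-((log M) ^ β / (3 * k + 4))) := by positivity
  -- the proportion as a probability
  set x : ℕ → ℝ := fun m => ((l * p ^ m : ℕ) : ℝ) / (q : ℝ) ^ (s + J) with hx
  have hP := unif_prob (s := range M) ⟨0, mem_range.2 (by omega)⟩ x
  classical
  have e1 : (((range M).filter (fun m => ∀ r, l * p ^ m / q ^ s / q ^ (J - (n r + w r)) %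
      q ^ (w r) = c r)).card : ℝ) / (range M).card = (unif (range M) x).real (WE q n w c) := by
    rw [real_unif _ _ (measurableSet_WE _ _ _ _)]
    congr 2
    congr 1
    refine filter_congr fun m _ => ?_
    unfold WE
    simp only [Set.mem_ofPred_eq]
    refine forall_congr' fun r => ?_
    have h1 : n r + w r ≤ s + J := by have := hn r; omega
    have h2 := wd_smear hq1 h1 (l * p ^ m) (θ := 0) (by simp)
    rw [add_zero] at h2
    have h3 : s + J - (n r + w r) = s + (J - (n r + w r)) := by have := hn r; omega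
    rw [hx]
    simp only
    rw [h2, h3, pow_add, Nat.div_div_eq_div_mul]
  rw [e1]
  by_cases hc : ∀ i, c i < q ^ w i
  · rw [WE_eq hq1]
    exact Pool.Agent.N586.RT.events_test (b := q) hq1 (τ := (log M) ^ β) (by positivity)
      (unif (range M) x) n
      (fun h hh hne => hM0 M (le_of_max_le_left hM) l s J hl hs hsJ n h
        (fun i => by have := hn i; omega) hh hne)
      (fun i => (c i : ℝ) / (q : ℝ) ^ (w i)) (fun i => ((c i : ℝ) + 1) / (q : ℝ) ^ (w i))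
      (fun i => by positivity) (fun i => by
        rw [div_le_one (by positivity)]
        exact_mod_cast hc i)
  · push Not at hc
    obtain ⟨i, hi⟩ := hc
    have e2 : WE q n w c = ∅ := by
      ext y
      simp only [Set.mem_empty_iff_false, iff_false]
      intro hy
      have h1 := hy i
      have h2 := wd_lt hq1 (w i) (n i) y
      omega
    rw [e2]
    simp only [measureReal_empty, sub_self, abs_zero]
    exact hpos

/-- **from tests on words with a saving `exp (-(log M) ^ β)`** -/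
theorem tg_of_words2 {b : ℕ} (hb : 2 ≤ b) {A' δ β : ℝ} (hA' : 0 < A') (hδ : 0 < δ) (hβ : 0 < β)
    {S : ℕ → Set (Measure ℝ)} (hS : ∀ M : ℕ, 1 ≤ M → ∀ P ∈ S M, IsProbabilityMeasure P)
    (hT : ∀ k : ℕ, ∃ ρ : ℝ, 0 < ρ ∧ ∃ C : ℝ, 0 ≤ C ∧ ∀ᶠ M : ℕ in atTop, ∀ P ∈ S M,
      ∀ n w c : Fin k → ℕ, (∀ i, (n i : ℝ) + w i ≤ 2 * A' * (log M) ^ (1 + δ)) →
      |P.real (WE b n w c) - Leb.real (WE b n w c)| ≤ C * exp (-(ρ * (log M) ^ β))) :
    TG b (fun M => A' * (log M) ^ (1 + δ)) S := by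
  have hbR : (2 : ℝ) ≤ b := by exact_mod_cast hb
  have hb1 : 1 ≤ b := by omega
  have hpow : Tendsto (fun M : ℕ => (log (M : ℝ)) ^ (1 + δ)) atTop atTop :=
    (tendsto_rpow_atTop (by linarith)).comp hlog
  have hL : Tendsto (fun M : ℕ => A' * (log (M : ℝ)) ^ (1 + δ)) atTop atTop := hpow.const_mul_atTop hA'
  refine ⟨hL, ?_, ?_⟩
  · filter_upwards [eventually_ge_atTop 1] with M hM P hP
    exact hS M hM P hP
  · intro k D
    obtain ⟨ρ, hρ, C, hC0, hC⟩ := hT k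
    -- the length of the words
    have e1 : ∀ᶠ t : ℝ in atTop, 2 * log (t ^ (D + 1)) + 1 ≤ t := by
      have a1 := ev_log (b := 1) (c := 1 / (4 * ((D : ℝ) + 1))) one_pos (by positivity)
      filter_upwards [a1, eventually_ge_atTop 2] with t g1 g2
      rw [Real.rpow_one] at g1
      rw [Real.log_pow]
      push_cast
      have g4 : 2 * (((D : ℝ) + 1) * log t) ≤ 1 / 2 * t := by
        calc 2 * (((D : ℝ) + 1) * log t) ≤ 2 * (((D : ℝ) + 1) * (1 / (4 * ((D : ℝ) + 1)) * t)) := by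
              gcongr
          _ = 1 / 2 * t := by field_simp; norm_num
      linarith
    -- the saving
    have e2 : ∀ᶠ L : ℝ in atTop, 2 * C * (b : ℝ) ^ k * (A' * L ^ (1 + δ)) ^ ((D + 1) * k + D) ≤
        exp (ρ * L ^ β) := by
      have a1 := ev_log (b := β) (c := ρ / (2 * (((1 + δ) * ((D + 1) * k + D : ℕ)) + 1))) hβ
        (by positivity)
      have a2 := ev_pow (a := 0) (b := β) (c := ρ / 2) hβ (by positivity)
        (log (2 * C * (b : ℝ) ^ k * A' ^ ((D + 1) * k + D) + 1))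
      filter_upwards [a1, a2, eventually_gt_atTop 1] with L g1 g2 g3
      rw [Real.rpow_zero, mul_one] at g2
      have hL0 : 0 < L := by linarith
      have hLb : 0 ≤ L ^ β := by positivity
      have hlogL : 0 ≤ log L := Real.log_nonneg g3.le
      obtain ⟨m, hm⟩ : ∃ m : ℕ, m = (D + 1) * k + D := ⟨_, rfl⟩
      rw [← hm] at g1 g2 ⊢
      have h1 : 2 * C * (b : ℝ) ^ k * (A' * L ^ (1 + δ)) ^ m ≤
          (2 * C * (b : ℝ) ^ k * A' ^ m + 1) * L ^ ((1 + δ) * m) := by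
        have h2 : (A' * L ^ (1 + δ)) ^ m = A' ^ m * L ^ ((1 + δ) * m) := by
          rw [mul_pow, ← Real.rpow_natCast (L ^ (1 + δ)), ← Real.rpow_mul hL0.le]
        rw [h2]
        have h3 : 0 ≤ L ^ ((1 + δ) * m) := by positivity
        calc 2 * C * (b : ℝ) ^ k * (A' ^ m * L ^ ((1 + δ) * m)) =
              (2 * C * (b : ℝ) ^ k * A' ^ m) * L ^ ((1 + δ) * m) := by ring
          _ ≤ _ := mul_le_mul_of_nonneg_right (by linarith) h3
      refine h1.trans ?_
      have h4 : (0 : ℝ) < 2 * C * (b : ℝ) ^ k * A' ^ m + 1 := by positivity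
      rw [← Real.exp_log (show (0 : ℝ) < (2 * C * (b : ℝ) ^ k * A' ^ m + 1) * L ^ ((1 + δ) * m) by
        positivity)]
      apply Real.exp_le_exp.2
      rw [Real.log_mul h4.ne' (by positivity), Real.log_rpow hL0]
      have h5 : (1 + δ) * m * log L ≤ ρ / 2 * L ^ β := by
        calc (1 + δ) * m * log L ≤ ((1 + δ) * m + 1) * log L :=
              mul_le_mul_of_nonneg_right (by linarith) hlogL
          _ ≤ ((1 + δ) * m + 1) * (ρ / (2 * ((1 + δ) * m + 1)) * L ^ β) :=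
              mul_le_mul_of_nonneg_left g1 (by positivity)
          _ = ρ / 2 * L ^ β := by field_simp
      linarith
    filter_upwards [hL.eventually e1, hlog.eventually e2, eventually_ge_atTop 1, hL.eventually_ge_atTop 1,
      hL.eventually_ge_atTop (4 * k), hC] with M g1 g2 g3 g4 g5 hCM P hP n hn u v hu hv
    have := hS M g3 P hP
    have hMp : (0 : ℝ) < M := by exact_mod_cast g3
    set X : ℝ := A' * (log M) ^ (1 + δ) with hX
    have hX0 : 0 < X := by linarith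
    obtain ⟨w, hw1, hw2, hw3⟩ := exists_len hb (one_le_pow₀ g4 : 1 ≤ X ^ (D + 1))
    have hw4 : X + w ≤ 2 * A' * (log M) ^ (1 + δ) := by
      have h6 : (w : ℝ) ≤ X := by linarith
      have : 2 * A' * (log M) ^ (1 + δ) = X + X := by rw [hX]; ring
      rw [this]
      linarith
    have key := sandwich w hb1 n u v P (Δ := C * exp (-(ρ * (log M) ^ β))) (by
      intro c
      have h8 := hCM P hP n (fun _ => w) c (fun i => by
        have := hn i
        linarith)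
      rw [Pool.Agent.Y933.KE.WE_eq hb1] at h8
      exact h8)
    refine key.trans ?_
    have hXD : 0 < X ^ D := by positivity
    have t1 : 2 * (k : ℝ) / (b : ℝ) ^ w ≤ 1 / 2 * (X ^ D)⁻¹ := by
      calc 2 * (k : ℝ) / (b : ℝ) ^ w ≤ 2 * (k : ℝ) / X ^ (D + 1) := by gcongr
        _ = (2 * k / X) * (X ^ D)⁻¹ := by
            rw [pow_succ]
            field_simp
        _ ≤ 1 / 2 * (X ^ D)⁻¹ := by
            have h20 : 2 * (k : ℝ) / X ≤ 1 / 2 := by
              rw [div_le_iff₀ hX0]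
              linarith
            exact mul_le_mul_of_nonneg_right h20 (by positivity)
    have hE : 0 < exp (ρ * (log M) ^ β) := Real.exp_pos _
    have t2 : ((b : ℝ) ^ w) ^ k * (C * exp (-(ρ * (log M) ^ β))) ≤ 1 / 2 * (X ^ D)⁻¹ := by
      have h9 : ((b : ℝ) ^ w) ^ k * (C * exp (-(ρ * (log M) ^ β))) ≤
          (b * X ^ (D + 1)) ^ k * (C * exp (-(ρ * (log M) ^ β))) := by gcongr
      refine h9.trans ?_
      rw [← div_eq_mul_inv, le_div_iff₀ hXD, Real.exp_neg]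
      have h11 : (b * X ^ (D + 1)) ^ k * (C * (exp (ρ * (log M) ^ β))⁻¹) * X ^ D =
          (C * (b : ℝ) ^ k * X ^ ((D + 1) * k + D)) / exp (ρ * (log M) ^ β) := by
        rw [mul_pow, ← pow_mul, pow_add X]
        field_simp
      rw [h11, div_le_iff₀ hE]
      linarith
    linarith

/-- **the lowest digits of the powers** -/
theorem tg_SLk {p q : ℕ} (hp : 2 ≤ p) (hq : q.Prime) (hpq : ¬ q ∣ p) {δ₀ : ℝ} (hδ₀ : 0 < δ₀)
    {δ : ℝ} (hδ : 0 < δ) (hδ2 : δ < 1 / 2) (C : ℝ) {A : ℝ} (hA : 0 < A) :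
    TG q (fun M => A * (log M) ^ (1 + δ)) (SLk p q δ₀ δ C) := by
  obtain ⟨β, hβd⟩ : ∃ β : ℝ, β = (1 / 2 - δ) / 2 := ⟨_, rfl⟩
  have hβ : 0 < β := by rw [hβd]; linarith
  refine tg_of_words2 hq.two_le hA hδ hβ (SLk_prob p q δ₀ δ C) fun k => ?_
  obtain ⟨M0, h⟩ := low_words2 hp hq hpq hδ₀ hδ hβ (by rw [hβd]; linarith) C k
  refine ⟨1 / (3 * k + 4), by positivity, 3 ^ k + k * 29, by positivity, ?_⟩
  filter_upwards [eventually_ge_atTop M0] with M hM P hP n w c _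
  obtain ⟨l, s, J, hl, hs, hsJ, rfl⟩ := hP
  have e : ∀ x : ℝ, 1 / (3 * (k : ℝ) + 4) * x = x / (3 * k + 4) := fun x => by ring
  rw [e]
  exact tw_smear hq.one_lt.le (range M) (fun n => l * p ^ n / q ^ s) J
    (fun n w c hn => h M hM l s J hl hs hsJ n w c hn) n w c

/-- the powers -/
theorem fam_pow2 {p q : ℕ} (hp : 2 ≤ p) (hq : q.Prime) (hpq : p.Coprime q) {δ₀ : ℝ} (hδ₀ : 0 < δ₀)
    {δ : ℝ} (hδ : 0 < δ) (hδ2 : δ < 1 / 2) :
    ∃ S : ℕ → Set (Measure ℝ), TG q (fun M => 2 * (log M) ^ (1 + δ)) S ∧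
      ∀ M : ℕ, ∀ l lo hi : ℕ, ¬ q ∣ l → δ₀ * log M ≤ lo → lo ≤ hi →
        (hi : ℝ) ≤ (log M) ^ (1 + δ) →
        smear (range M) (fun n => l * p ^ n / q ^ lo) q (hi - lo) ∈ S M := by
  have hpq' : ¬ q ∣ p := by
    intro h
    have h1 : q ∣ p.gcd q := Nat.dvd_gcd h dvd_rfl
    rw [hpq] at h1
    have := Nat.le_of_dvd one_pos h1
    have := hq.two_le
    omega
  refine ⟨SLk p q δ₀ δ 1, tg_SLk hp hq hpq' hδ₀ hδ hδ2 1 two_pos, fun M l lo hi hl hlo h1 hhi => ?_⟩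
  refine ⟨l, lo, hi - lo, hl, hlo, ?_, rfl⟩
  rw [Nat.cast_sub h1]
  linarith

end Pool.Agent.T9h58.KO
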