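import Pool.Agent.Y957.VK.Stm

/-!
# The factors of the bilinear method for rational coefficients
-/

set_option autoImplicit false

namespace Pool.Agent.T9h58.KO

open Finset Pool.Agent.Y957.VK

/-- `mn V (b / Q)` for a remainder `b` -/
noncomputable def ph (V Q b : ℕ) : ℝ :=
  if b = 0 then 2 * V + 1 else (Q : ℝ) / 2 * (1 / b + 1 / ((Q : ℝ) - b))

lemma ph_nonneg {V Q b : ℕ} (hb : b < Q) : 0 ≤ ph V Q b := by
  unfold ph
  split_ifs with h
  · positivity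
  · have h1 : (0 : ℝ) < (Q : ℝ) - b := by
      have : (b : ℝ) < Q := by exact_mod_cast hb
      linarith
    positivity

/-- the value at a fraction -/
lemma mn_le (V Q : ℕ) (hQ : 1 ≤ Q) (n : ℤ) :
    mn V ((n : ℝ) / Q) ≤ ph V Q (n % (Q : ℤ)).toNat := by
  have hQ0 : (0 : ℝ) < Q := by exact_mod_cast hQ
  have hQz : (0 : ℤ) < Q := by exact_mod_cast hQ
  obtain ⟨b, hb⟩ : ∃ b : ℕ, (b : ℤ) = n % (Q : ℤ) :=
    ⟨(n % (Q : ℤ)).toNat, Int.toNat_of_nonneg (Int.emod_nonneg _ hQz.ne')⟩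
  have hb1 : (n % (Q : ℤ)).toNat = b := by rw [← hb]; rfl
  have hbQ : b < Q := by
    have := Int.emod_lt_of_pos n hQz
    rw [← hb] at this
    exact_mod_cast this
  have hbQ' : (b : ℝ) < Q := by exact_mod_cast hbQ
  rw [hb1]
  have hn : (n : ℝ) / Q = (n / (Q : ℤ) : ℤ) + (b : ℝ) / Q := by
    have h1 := Int.emod_add_mul_ediv n (Q : ℤ)
    rw [← hb] at h1
    have h2 : (n : ℝ) = b + Q * (n / (Q : ℤ) : ℤ) := by
      have : ((b : ℤ) + (Q : ℤ) * (n / (Q : ℤ)) : ℤ) = n := h1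
      calc (n : ℝ) = (((b : ℤ) + (Q : ℤ) * (n / (Q : ℤ)) : ℤ) : ℝ) := by rw [this]
        _ = _ := by push_cast; ring
    rw [h2]
    field_simp
    ring
  have hdz : dz ((n : ℝ) / Q) = dz ((b : ℝ) / Q) := by
    unfold dz
    rw [hn, round_intCast_add]
    push_cast
    congr 1
    ring
  unfold mn
  rw [hdz]
  unfold ph
  by_cases h0 : b = 0
  · rw [if_pos h0, h0]
    split_ifs
    · exact le_rfl
    · exact min_le_left _ _
  · have hb0 : (0 : ℝ) < b := by exact_mod_cast Nat.pos_of_ne_zero h0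
    have hQb : (0 : ℝ) < (Q : ℝ) - b := by linarith
    rw [if_neg h0]
    -- the distance is at least `min (b, Q - b) / Q`
    have hlow : min ((b : ℝ) / Q) (((Q : ℝ) - b) / Q) ≤ dz ((b : ℝ) / Q) := by
      unfold dz
      set k : ℤ := round ((b : ℝ) / Q) with hk
      have hx0 : 0 < (b : ℝ) / Q := by positivity
      have hx1 : (b : ℝ) / Q < 1 := by rw [div_lt_one hQ0]; exact hbQ'
      rcases le_or_gt k 0 with h | h
      · have : (k : ℝ) ≤ 0 := by exact_mod_cast h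
        refine (min_le_left _ _).trans ?_
        refine le_trans ?_ (le_abs_self _)
        linarith
      · have : (1 : ℝ) ≤ k := by exact_mod_cast h
        refine (min_le_right _ _).trans ?_
        refine le_trans ?_ (neg_le_abs _)
        rw [sub_div, div_self hQ0.ne']
        linarith
    have hmin : 0 < min ((b : ℝ) / Q) (((Q : ℝ) - b) / Q) := lt_min (by positivity) (by positivity)
    have hd : 0 < dz ((b : ℝ) / Q) := lt_of_lt_of_le hmin hlow
    rw [if_neg hd.ne']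
    refine (min_le_right _ _).trans ?_
    have h1 : 1 / (2 * dz ((b : ℝ) / Q)) ≤ 1 / (2 * min ((b : ℝ) / Q) (((Q : ℝ) - b) / Q)) :=
      one_div_le_one_div_of_le (by positivity) (by linarith)
    refine h1.trans ?_
    rcases min_cases ((b : ℝ) / Q) (((Q : ℝ) - b) / Q) with ⟨h2, _⟩ | ⟨h2, _⟩
    · rw [h2]
      have e : 1 / (2 * ((b : ℝ) / Q)) = (Q : ℝ) / 2 * (1 / b) := by field_simp
      rw [e]
      have : 0 ≤ (Q : ℝ) / 2 * (1 / ((Q : ℝ) - b)) := by positivity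
      linarith
    · rw [h2]
      have e : 1 / (2 * (((Q : ℝ) - b) / Q)) = (Q : ℝ) / 2 * (1 / ((Q : ℝ) - b)) := by field_simp
      rw [e]
      have : 0 ≤ (Q : ℝ) / 2 * (1 / b) := by positivity
      linarith

/-- the sum over the remainders -/
lemma sum_ph (V Q : ℕ) (hQ : 1 ≤ Q) :
    ∑ b ∈ range Q, ph V Q b ≤ 2 * V + 1 + Q * (1 + Real.log Q) := by
  obtain ⟨n, rfl⟩ : ∃ n, Q = n + 1 := ⟨Q - 1, by omega⟩
  rw [sum_range_succ']
  have h0 : ph V (n + 1) 0 = 2 * V + 1 := by unfold ph; rw [if_pos rfl]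
  have h1 : ∀ b ∈ range n, ph V (n + 1) (b + 1) =
      ((n : ℝ) + 1) / 2 * (1 / ((b : ℝ) + 1)) + ((n : ℝ) + 1) / 2 * (1 / ((n - 1 - b : ℕ) + 1 : ℝ)) := by
    intro b hb
    rw [mem_range] at hb
    unfold ph
    rw [if_neg (by omega)]
    have e : ((n - 1 - b : ℕ) : ℝ) + 1 = (n : ℝ) - b := by
      have : n - 1 - b + 1 + b = n := by omega
      have h2 : ((n - 1 - b + 1 + b : ℕ) : ℝ) = n := by rw [this]
      push_cast at h2
      linarith
    rw [e]
    push_cast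
    have e2 : (n : ℝ) + 1 - (b + 1) = n - b := by ring
    rw [e2]
    ring
  rw [h0, sum_congr rfl h1, sum_add_distrib, ← mul_sum, ← mul_sum]
  have h2 : ∑ b ∈ range n, 1 / ((n - 1 - b : ℕ) + 1 : ℝ) = ∑ b ∈ range n, 1 / ((b : ℝ) + 1) :=
    sum_range_reflect (fun b : ℕ => 1 / ((b : ℝ) + 1)) n
  rw [h2]
  have h3 : ∑ b ∈ range n, 1 / ((b : ℝ) + 1) ≤ 1 + Real.log ((n + 1 : ℕ) : ℝ) := by
    have h4 := harmonic_le_one_add_log n
    have h5 : ((harmonic n : ℚ) : ℝ) = ∑ b ∈ range n, 1 / ((b : ℝ) + 1) := by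
      unfold harmonic
      push_cast
      exact sum_congr rfl fun b _ => by rw [one_div]
    rw [← h5]
    refine h4.trans ?_
    rcases Nat.eq_zero_or_pos n with h | h
    · subst h
      simp
    · have : Real.log (n : ℝ) ≤ Real.log ((n + 1 : ℕ) : ℝ) :=
        Real.log_le_log (by exact_mod_cast h) (by push_cast; linarith)
      linarith
  have h4 : (0 : ℝ) ≤ ((n : ℝ) + 1) / 2 := by positivity
  have h5 := mul_le_mul_of_nonneg_left h3 h4
  push_cast at h5 ⊢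
  linarith

/-- the number of `u` with given remainder of `a u` -/
lemma count_res (V Q : ℕ) (hQ : 1 ≤ Q) (a : ℤ) (hcop : IsCoprime a (Q : ℤ)) (b : ℕ) :
    (((Icc (-(V : ℤ)) (V : ℤ)).filter (fun u => (a * u % (Q : ℤ)).toNat = b)).card : ℝ) ≤
      (2 * V + 1) / Q + 1 := by
  classical
  have hQ0 : (0 : ℝ) < Q := by exact_mod_cast hQ
  have hQz : (0 : ℤ) < Q := by exact_mod_cast hQ
  rcases ((Icc (-(V : ℤ)) (V : ℤ)).filter (fun u => (a * u % (Q : ℤ)).toNat = b)).eq_empty_or_nonempty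
    with h | ⟨v, hv⟩
  · rw [h, card_empty]
    have : (0 : ℝ) ≤ (2 * V + 1) / Q := by positivity
    push_cast
    linarith
  rw [mem_filter] at hv
  have hsub : (Icc (-(V : ℤ)) (V : ℤ)).filter (fun u => (a * u % (Q : ℤ)).toNat = b) ⊆
      (Ioc (-(V : ℤ) - 1) (V : ℤ)).filter (fun u => u ≡ v [ZMOD Q]) := by
    intro u hu
    rw [mem_filter] at hu
    rw [mem_filter]
    constructor
    · rw [mem_Icc] at hu
      rw [mem_Ioc]
      omega
    · have h1 : a * u % (Q : ℤ) = a * v % (Q : ℤ) := by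
        have h2 := Int.toNat_of_nonneg (Int.emod_nonneg (a * u) hQz.ne')
        have h3 := Int.toNat_of_nonneg (Int.emod_nonneg (a * v) hQz.ne')
        rw [← h2, ← h3, hu.2, hv.2]
      have h2 : (Q : ℤ) ∣ a * (v - u) := by
        have := Int.ModEq.dvd h1
        rwa [← mul_sub] at this
      have h3 : (Q : ℤ) ∣ v - u := hcop.symm.dvd_of_dvd_mul_left h2
      exact (Int.modEq_iff_dvd.2 h3)
  have h1 := card_le_card hsub
  have h2 := Int.Ioc_filter_modEq_card (-(V : ℤ) - 1) (V : ℤ) hQz v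
  have h3 : (((Ioc (-(V : ℤ) - 1) (V : ℤ)).filter (fun u => u ≡ v [ZMOD Q])).card : ℝ) ≤
      (2 * V + 1) / Q + 1 := by
    have h4 : (((Ioc (-(V : ℤ) - 1) (V : ℤ)).filter (fun u => u ≡ v [ZMOD Q])).card : ℝ) =
        ((max (⌊(((V : ℤ) - v : ℤ) : ℚ) / ((Q : ℤ) : ℚ)⌋ -
          ⌊((-(V : ℤ) - 1 - v : ℤ) : ℚ) / ((Q : ℤ) : ℚ)⌋) 0 : ℤ) : ℝ) := by
      have := congrArg (fun z : ℤ => (z : ℝ)) h2
      push_cast at this ⊢
      exact this
    rw [h4]
    push_cast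
    apply max_le
    · have k1 := Int.floor_le ((((V : ℤ) - v : ℤ) : ℚ) / ((Q : ℤ) : ℚ))
      have k2 := Int.lt_floor_add_one (((-(V : ℤ) - 1 - v : ℤ) : ℚ) / ((Q : ℤ) : ℚ))
      have k3 : ((⌊(((V : ℤ) - v : ℤ) : ℚ) / ((Q : ℤ) : ℚ)⌋ : ℤ) : ℚ) -
          ((⌊((-(V : ℤ) - 1 - v : ℤ) : ℚ) / ((Q : ℤ) : ℚ)⌋ : ℤ) : ℚ) ≤ (2 * V + 1) / Q + 1 := by
        have e : (((V : ℤ) - v : ℤ) : ℚ) / ((Q : ℤ) : ℚ) - ((-(V : ℤ) - 1 - v : ℤ) : ℚ) / ((Q : ℤ) : ℚ) =
            (2 * V + 1) / Q := by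
          push_cast
          ring
        linarith
      push_cast at k3
      have k4 := (Rat.cast_le (K := ℝ)).2 k3
      push_cast at k4
      exact k4
    · positivity
  exact le_trans (by exact_mod_cast h1) h3

/-- **the factor for a rational coefficient** -/
theorem WJ_rat (s M j : ℕ) (a : ℤ) (Q : ℕ) (hQ : 1 ≤ Q) (hcop : IsCoprime a (Q : ℤ)) :
    WJ s M j ((a : ℝ) / Q) ≤ ((2 * (s * M ^ j : ℕ) + 1) / Q + 1) *
      (2 * (s * M ^ j : ℕ) + 1 + Q * (1 + Real.log Q)) := by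
  classical
  obtain ⟨V, hV⟩ : ∃ V : ℕ, V = s * M ^ j := ⟨_, rfl⟩
  unfold WJ
  rw [← hV]
  have hQz : (0 : ℤ) < Q := by exact_mod_cast hQ
  have h1 : ∀ u ∈ Icc (-(V : ℤ)) (V : ℤ), mn V ((a : ℝ) / Q * u) ≤ ph V Q (a * u % (Q : ℤ)).toNat := by
    intro u _
    have e : (a : ℝ) / Q * u = ((a * u : ℤ) : ℝ) / Q := by push_cast; ring
    rw [e]
    exact mn_le V Q hQ _
  refine (sum_le_sum h1).trans ?_
  have hmaps : ∀ u ∈ Icc (-(V : ℤ)) (V : ℤ), (a * u % (Q : ℤ)).toNat ∈ range Q := by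
    intro u _
    rw [mem_range]
    have h2 := Int.emod_lt_of_pos (a * u) hQz
    have h3 := Int.toNat_of_nonneg (Int.emod_nonneg (a * u) hQz.ne')
    omega
  rw [← sum_fiberwise_of_maps_to hmaps]
  have h2 : ∀ b ∈ range Q, ∑ u ∈ (Icc (-(V : ℤ)) (V : ℤ)).filter (fun u => (a * u % (Q : ℤ)).toNat = b),
      ph V Q (a * u % (Q : ℤ)).toNat ≤ ((2 * V + 1) / Q + 1) * ph V Q b := by
    intro b hb
    rw [mem_range] at hb
    have h3 : ∑ u ∈ (Icc (-(V : ℤ)) (V : ℤ)).filter (fun u => (a * u % (Q : ℤ)).toNat = b),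
        ph V Q (a * u % (Q : ℤ)).toNat =
        ∑ u ∈ (Icc (-(V : ℤ)) (V : ℤ)).filter (fun u => (a * u % (Q : ℤ)).toNat = b), ph V Q b := by
      refine sum_congr rfl fun u hu => ?_
      rw [(mem_filter.1 hu).2]
    rw [h3, sum_const, nsmul_eq_mul]
    exact mul_le_mul_of_nonneg_right (count_res V Q hQ a hcop b) (ph_nonneg hb)
  refine (sum_le_sum h2).trans ?_
  rw [← mul_sum]
  exact mul_le_mul_of_nonneg_left (sum_ph V Q hQ) (by positivity)

end Pool.Agent.T9h58.KO
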