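import Pool.Agent.N586.AN.Vm
import Pool.Agent.N586.RT.Tn
import Pool.Agent.T9h58.KO.K1

/-!
# The bilinear sums with many rational coefficients of suitable denominators
-/

set_option autoImplicit false

namespace Pool.Agent.T9h58.KO

open Finset Pool.Agent.Y957.VK Pool.Agent.Y70.VK

/-- the number of good indices -/
lemma good_card {ν : ℝ} (hν : 20 ≤ ν) {r : ℕ} (hr : ν ≤ r) :
    17 / 100 * ν ≤ (((Icc 1 r).filter fun j : ℕ => 11 / 25 * ν ≤ j ∧ (j : ℝ) ≤ 2 / 3 * ν).card : ℝ) := by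
  have h1 : Icc ⌈11 / 25 * ν⌉₊ ⌊2 / 3 * ν⌋₊ ⊆
      (Icc 1 r).filter fun j : ℕ => 11 / 25 * ν ≤ j ∧ (j : ℝ) ≤ 2 / 3 * ν := by
    intro j hj
    rw [mem_Icc] at hj
    have h2 : 11 / 25 * ν ≤ j := Nat.ceil_le.1 hj.1
    have h3 : (j : ℝ) ≤ 2 / 3 * ν := (Nat.le_floor_iff (by linarith)).1 hj.2
    rw [mem_filter, mem_Icc]
    refine ⟨⟨?_, ?_⟩, h2, h3⟩
    · have : (1 : ℝ) ≤ j := by linarith
      exact_mod_cast this
    · have : (j : ℝ) ≤ r := by linarith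
      exact_mod_cast this
  have h2 := card_le_card h1
  rw [Nat.card_Icc] at h2
  have h3 : (⌈11 / 25 * ν⌉₊ : ℝ) < 11 / 25 * ν + 1 := Nat.ceil_lt_add_one (by linarith)
  have h4 : 2 / 3 * ν < (⌊2 / 3 * ν⌋₊ : ℝ) + 1 := Nat.lt_floor_add_one _
  have h5 : ⌈11 / 25 * ν⌉₊ ≤ ⌊2 / 3 * ν⌋₊ + 1 := by
    have : (⌈11 / 25 * ν⌉₊ : ℝ) ≤ ((⌊2 / 3 * ν⌋₊ + 1 : ℕ) : ℝ) := by
      push_cast
      linarith
    exact_mod_cast this
  have h6 : ((⌊2 / 3 * ν⌋₊ + 1 - ⌈11 / 25 * ν⌉₊ : ℕ) : ℝ) =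
      (⌊2 / 3 * ν⌋₊ : ℝ) + 1 - ⌈11 / 25 * ν⌉₊ := by
    rw [Nat.cast_sub h5]
    push_cast
    ring
  have h8 : ((⌊2 / 3 * ν⌋₊ + 1 - ⌈11 / 25 * ν⌉₊ : ℕ) : ℝ) ≤
      (((Icc 1 r).filter fun j : ℕ => 11 / 25 * ν ≤ j ∧ (j : ℝ) ≤ 2 / 3 * ν).card : ℝ) := by
    exact_mod_cast h2
  refine le_trans ?_ h8
  rw [h6]
  linarith

lemma WJ_nonneg (s M j : ℕ) (a : ℝ) : 0 ≤ WJ s M j a := by
  unfold WJ
  refine Finset.sum_nonneg fun u _ => ?_
  unfold mn dz
  split_ifs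
  · positivity
  · refine le_min (by positivity) ?_
    have := abs_nonneg (a * u - round (a * u))
    positivity

/-- the good factors -/
lemma WJ_good {s X j : ℕ} (hs : 1 ≤ s) (hX : 1 ≤ X) {a : ℤ} {Q : ℕ} (hQ : 1 ≤ Q)
    (hcop : IsCoprime a (Q : ℤ)) (h1 : 1 / 2 * (j * Real.log X) ≤ Real.log Q)
    (h2 : Real.log Q ≤ 3 / 2 * (j * Real.log X)) :
    WJ s X j ((a : ℝ) / Q) ≤
      36 * (s : ℝ) ^ 2 * (1 + 3 / 2 * (j * Real.log X)) * Real.exp (3 / 2 * (j * Real.log X)) := by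
  have hXR : (1 : ℝ) ≤ X := by exact_mod_cast hX
  have hsR : (1 : ℝ) ≤ s := by exact_mod_cast hs
  have hQ0 : (0 : ℝ) < Q := by exact_mod_cast hQ
  obtain ⟨m, hm⟩ : ∃ m : ℝ, m = j * Real.log X := ⟨_, rfl⟩
  rw [← hm] at h1 h2 ⊢
  obtain ⟨lam, hlam⟩ : ∃ lam : ℝ, lam = Real.log Q := ⟨_, rfl⟩
  have hm0 : 0 ≤ m := by rw [hm]; exact mul_nonneg (Nat.cast_nonneg _) (Real.log_nonneg hXR)
  have hlam0 : 0 ≤ lam := by rw [hlam]; exact Real.log_nonneg (by exact_mod_cast hQ)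
  have hQe : (Q : ℝ) = Real.exp lam := by rw [hlam, Real.exp_log hQ0]
  have hXe : (X : ℝ) ^ j = Real.exp m := by
    rw [hm, mul_comm, Real.exp_mul, Real.exp_log (by linarith), Real.rpow_natCast]
  have hVe : ((s * X ^ j : ℕ) : ℝ) = s * Real.exp m := by push_cast; rw [hXe]
  have hem : 1 ≤ Real.exp m := Real.one_le_exp hm0
  have hV : 2 * ((s * X ^ j : ℕ) : ℝ) + 1 ≤ 3 * (s * Real.exp m) := by
    rw [hVe]
    have : 1 ≤ (s : ℝ) * Real.exp m := one_le_mul_of_one_le_of_one_le hsR hem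
    linarith
  have key := WJ_rat s X j a Q hQ hcop
  have hV0 : (0 : ℝ) ≤ 2 * ((s * X ^ j : ℕ) : ℝ) + 1 := by positivity
  rw [← hlam] at h1 h2 key
  refine key.trans ?_
  have k1 : (2 * ((s * X ^ j : ℕ) : ℝ) + 1) / Q + 1 ≤ 3 * s * Real.exp (m - lam) + 1 := by
    have : (2 * ((s * X ^ j : ℕ) : ℝ) + 1) / Q ≤ 3 * (s * Real.exp m) / Q :=
      div_le_div_of_nonneg_right hV hQ0.le
    have e : 3 * (s * Real.exp m) / Q = 3 * s * Real.exp (m - lam) := by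
      rw [Real.exp_sub, hQe]; ring
    linarith
  have k2 : 2 * ((s * X ^ j : ℕ) : ℝ) + 1 + Q * (1 + lam) ≤
      3 * (s * Real.exp m) + Real.exp lam * (1 + lam) := by
    rw [hQe]
    linarith
  have k3 : (2 * ((s * X ^ j : ℕ) : ℝ) + 1) / Q + 1 ≥ 0 := by positivity
  calc ((2 * ((s * X ^ j : ℕ) : ℝ) + 1) / Q + 1) * (2 * ((s * X ^ j : ℕ) : ℝ) + 1 + Q * (1 + lam)) ≤
      (3 * s * Real.exp (m - lam) + 1) * (3 * (s * Real.exp m) + Real.exp lam * (1 + lam)) :=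
        mul_le_mul k1 k2 (by positivity) (by positivity)
    _ = 9 * s ^ 2 * Real.exp (2 * m - lam) + 3 * s * Real.exp m * (1 + lam) + 3 * s * Real.exp m +
        Real.exp lam * (1 + lam) := by
        have e1 : Real.exp (m - lam) * Real.exp m = Real.exp (2 * m - lam) := by
          rw [← Real.exp_add]; congr 1; ring
        have e2 : Real.exp (m - lam) * Real.exp lam = Real.exp m := by
          rw [← Real.exp_add]; congr 1; ring
        calc _ = 9 * s ^ 2 * (Real.exp (m - lam) * Real.exp m) +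
              3 * s * (Real.exp (m - lam) * Real.exp lam) * (1 + lam) + 3 * s * Real.exp m +
              Real.exp lam * (1 + lam) := by ring
          _ = _ := by rw [e1, e2]
    _ ≤ 9 * s ^ 2 * Real.exp (3 / 2 * m) * (4 * (1 + 3 / 2 * m)) := by
        obtain ⟨E, hE⟩ : ∃ E : ℝ, E = Real.exp (3 / 2 * m) := ⟨_, rfl⟩
        have g1 : Real.exp (2 * m - lam) ≤ E := by rw [hE]; exact Real.exp_le_exp.2 (by linarith)
        have g2 : Real.exp m ≤ E := by rw [hE]; exact Real.exp_le_exp.2 (by linarith)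
        have g3 : Real.exp lam ≤ E := by rw [hE]; exact Real.exp_le_exp.2 (by linarith)
        have hE0 : 0 < E := by rw [hE]; exact Real.exp_pos _
        rw [← hE]
        have f1 : 9 * (s : ℝ) ^ 2 * Real.exp (2 * m - lam) ≤ 9 * s ^ 2 * E * (1 + 3 / 2 * m) := by
          calc 9 * (s : ℝ) ^ 2 * Real.exp (2 * m - lam) ≤ 9 * s ^ 2 * E := by gcongr
            _ ≤ 9 * s ^ 2 * E * (1 + 3 / 2 * m) :=
                le_mul_of_one_le_right (by positivity) (by linarith)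
        have hs2 : (s : ℝ) ≤ s ^ 2 := by nlinarith
        have f2 : 3 * (s : ℝ) * Real.exp m * (1 + lam) ≤ 9 * s ^ 2 * E * (1 + 3 / 2 * m) := by
          have : 3 * (s : ℝ) * Real.exp m ≤ 9 * s ^ 2 * E := by
            calc 3 * (s : ℝ) * Real.exp m ≤ 3 * s ^ 2 * E := by gcongr
              _ ≤ 9 * s ^ 2 * E := by
                  have : 0 ≤ (s : ℝ) ^ 2 * E := by positivity
                  linarith
          exact mul_le_mul this (by linarith) (by positivity) (by positivity)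
        have f3 : 3 * (s : ℝ) * Real.exp m ≤ 9 * s ^ 2 * E * (1 + 3 / 2 * m) := by
          calc 3 * (s : ℝ) * Real.exp m ≤ 3 * s ^ 2 * E := by gcongr
            _ ≤ 9 * s ^ 2 * E := by
                have : 0 ≤ (s : ℝ) ^ 2 * E := by positivity
                linarith
            _ ≤ _ := le_mul_of_one_le_right (by positivity) (by linarith)
        have f4 : Real.exp lam * (1 + lam) ≤ 9 * s ^ 2 * E * (1 + 3 / 2 * m) := by
          have h9 : Real.exp lam ≤ 9 * (s : ℝ) ^ 2 * E := by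
            refine g3.trans (le_mul_of_one_le_left hE0.le ?_)
            nlinarith
          exact mul_le_mul h9 (by linarith) (by positivity) (by positivity)
        linarith
    _ = _ := by ring

/-- the last step -/
lemma fin2 {ν l r η A0 A1 y L1 C : ℝ} (hν : 20 ≤ ν) (hl : 0 ≤ l) (hr1 : ν ≤ r) (hr2 : r ≤ ν + 1)
    (hη : η ≤ r * (r + 1) / 2 / 2937) (hL1 : 0 ≤ L1) (hC : 0 ≤ C) (hA1 : A1 ≤ C * (9 * r) ^ 4)
    (hA0 : A0 ≤ 324 * r ^ 3)
    (h : 4 * (9 * r ^ 2) ^ 2 * y ≤ (8 * (9 * r ^ 2) ^ 2 - 4 * (9 * r ^ 2)) * l +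
      2 * (A1 + (2 * (9 * r ^ 2) - r * (r + 1) / 2 + η) * l) +
      (r * (r + 1) * l + r * A0 + r * L1 - 17 / 100 * ν * (11 / 25 * ν) * (l / 2))) :
    y ≤ 2 * l + (41 * C + 1) + L1 - l / (20000 * ν ^ 2) := by
  have hr0 : 0 < r := by linarith
  have hν0 : 0 < ν := by linarith
  have hr4 : (0 : ℝ) < 324 * r ^ 4 := by positivity
  have hrν : r ≤ 21 / 20 * ν := by linarith
  have hrν4 : r ^ 4 ≤ 1216 / 1000 * ν ^ 4 := by
    calc r ^ 4 ≤ (21 / 20 * ν) ^ 4 := pow_le_pow_left₀ hr0.le hrν 4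
      _ = (21 / 20) ^ 4 * ν ^ 4 := by ring
      _ ≤ 1216 / 1000 * ν ^ 4 := by
          have : (0 : ℝ) ≤ ν ^ 4 := by positivity
          nlinarith
  have h1 : 2 * η ≤ 4 / 10000 * ν ^ 2 := by
    have : r * (r + 1) ≤ 21 / 20 * ν * (11 / 10 * ν) :=
      mul_le_mul hrν (by linarith) (by linarith) (by positivity)
    nlinarith
  have h2 : 2 * η * l ≤ 4 / 10000 * ν ^ 2 * l := mul_le_mul_of_nonneg_right h1 hl
  have h3 : 324 * r ^ 4 * y ≤ 324 * r ^ 4 * (2 * l) + 2 * (C * (9 * r) ^ 4) + r * (324 * r ^ 3) + r * L1 -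
      36 / 1000 * ν ^ 2 * l := by
    have e : r * A0 ≤ r * (324 * r ^ 3) := mul_le_mul_of_nonneg_left hA0 hr0.le
    have e2 : 0 ≤ ν ^ 2 * l := by positivity
    nlinarith
  have h4 : r * L1 ≤ 324 * r ^ 4 * L1 := by
    apply mul_le_mul_of_nonneg_right _ hL1
    have : 1 ≤ r ^ 3 := one_le_pow₀ (by linarith)
    nlinarith
  have h5 : 324 * r ^ 4 * (l / (20000 * ν ^ 2)) ≤ 36 / 1000 * ν ^ 2 * l := by
    have e : 36 / 1000 * ν ^ 2 * l = (36 * 20 * ν ^ 4) * (l / (20000 * ν ^ 2)) := by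
      field_simp
      ring
    rw [e]
    apply mul_le_mul_of_nonneg_right _ (by positivity)
    have : (0 : ℝ) ≤ ν ^ 4 := by positivity
    linarith
  have h6 : 2 * (C * (9 * r) ^ 4) + r * (324 * r ^ 3) ≤ 324 * r ^ 4 * (41 * C + 1) := by
    have : 0 ≤ C * r ^ 4 := by positivity
    have e : 2 * (C * (9 * r) ^ 4) = 13122 * (C * r ^ 4) := by ring
    have e2 : 324 * r ^ 4 * (41 * C + 1) = 13284 * (C * r ^ 4) + 324 * r ^ 4 := by ring
    have e3 : r * (324 * r ^ 3) = 324 * r ^ 4 := by ring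
    rw [e, e2, e3]
    linarith
  have h7 : 324 * r ^ 4 * y ≤ 324 * r ^ 4 * (2 * l + (41 * C + 1) + L1 - l / (20000 * ν ^ 2)) := by
    have e : 324 * r ^ 4 * (2 * l + (41 * C + 1) + L1 - l / (20000 * ν ^ 2)) =
        324 * r ^ 4 * (2 * l) + 324 * r ^ 4 * (41 * C + 1) + 324 * r ^ 4 * L1 -
          324 * r ^ 4 * (l / (20000 * ν ^ 2)) := by ring
    rw [e]
    linarith
  exact le_of_mul_le_mul_left h7 hr4

end Pool.Agent.T9h58.KO
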