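import Pool.Agent.T9h58.KO.K2

/-!
# The bilinear sums with many rational coefficients of suitable denominators: the bound
-/

set_option autoImplicit false

namespace Pool.Agent.T9h58.KO

open Finset Pool.Agent.Y957.VK Pool.Agent.Y70.VK

/-- the coefficients with `11 ν / 25 ≤ j ≤ 2 ν / 3` are fractions with denominators between
`X ^ (j / 2)` and `X ^ (3 j / 2)` -/
def GoodCo (r X : ℕ) (ν : ℝ) (α : ℕ → ℝ) : Prop :=
  ∀ j ∈ Icc 1 r, 11 / 25 * ν ≤ j → (j : ℝ) ≤ 2 / 3 * ν → ∃ (a : ℤ) (Q : ℕ), 1 ≤ Q ∧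
    IsCoprime a (Q : ℤ) ∧ α j = (a : ℝ) / Q ∧ 1 / 2 * (j * Real.log X) ≤ Real.log Q ∧
    Real.log Q ≤ 3 / 2 * (j * Real.log X)

/-- **the bilinear sums** -/
theorem tt_bound : ∃ C : ℝ, 0 ≤ C ∧ ∀ (r X : ℕ) (ν : ℝ) (α : ℕ → ℝ), 20 ≤ ν → ν ≤ r →
    (r : ℝ) ≤ ν + 1 → 1 ≤ X → GoodCo r X ν α →
    ‖TT r X α‖ ≤ (X : ℝ) ^ 2 *
      Real.exp (C + Real.log (1 + Real.log X) - Real.log X / (20000 * ν ^ 2)) := by
  obtain ⟨C1, hC1, hV⟩ := Pool.Agent.N586.AN.t_vm
  have h2 := Pool.Agent.N586.RT.dbl_all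
  refine ⟨41 * C1 + 1, by positivity, fun r X ν α hν hr1 hr2 hX hα => ?_⟩
  have hXR : (1 : ℝ) ≤ X := by exact_mod_cast hX
  have hr20 : (20 : ℝ) ≤ r := hν.trans hr1
  have hr20' : 20 ≤ r := by exact_mod_cast hr20
  have hr0 : (0 : ℝ) < r := by linarith
  have hν0 : 0 < ν := by linarith
  obtain ⟨l, hl⟩ : ∃ l : ℝ, l = Real.log X := ⟨_, rfl⟩
  have hl0 : 0 ≤ l := by rw [hl]; exact Real.log_nonneg hXR
  have hL1 : 0 ≤ Real.log (1 + l) := Real.log_nonneg (by linarith)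
  obtain ⟨s, hs⟩ : ∃ s : ℕ, s = 9 * r ^ 2 := ⟨_, rfl⟩
  have hs1 : 1 ≤ s := by rw [hs]; have : 0 < r ^ 2 := by positivity
                         omega
  have hsR : (s : ℝ) = 9 * (r : ℝ) ^ 2 := by rw [hs]; push_cast; ring
  rw [← hl]
  rcases (norm_nonneg (TT r X α)).eq_or_lt with hT | hT
  · rw [← hT]
    positivity
  have hexpX : (X : ℝ) ^ 2 = Real.exp (2 * l) := by
    rw [hl, mul_comm, Real.exp_mul, Real.exp_log (by linarith)]
    norm_cast
  suffices hmain : Real.log ‖TT r X α‖ ≤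
      2 * l + (41 * C1 + 1) + Real.log (1 + l) - l / (20000 * ν ^ 2) by
    rw [hexpX, ← Real.exp_add, ← Real.exp_log hT]
    apply Real.exp_le_exp.2
    linarith
  have hJ := hV r (8 * r) X (by omega) hX
  have hD := h2 s r X α hs1 (by omega) hX
  have hrs : r ^ 2 + r * (8 * r) = s := by rw [hs]; ring
  rw [hrs] at hJ
  obtain ⟨e, he⟩ : ∃ e : ℝ, e = 2 * ((r : ℝ) ^ 2 + r * (8 * r)) - r * (r + 1) / 2 +
    r * (r + 1) / 2 * (1 - 1 / (r : ℝ)) ^ (8 * r) := ⟨_, rfl⟩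
  have hJ' : (J s r X : ℝ) ≤ Real.exp (C1 * ((r : ℝ) + 8 * r) ^ 4) * (X : ℝ) ^ e := by
    rw [he]
    refine hJ.trans (le_of_eq ?_)
    push_cast
    rfl
  have hTpow : 0 < ‖TT r X α‖ ^ (4 * s ^ 2) := pow_pos hT _
  have hprod : 0 < (X : ℝ) ^ (8 * s ^ 2 - 4 * s) * (J s r X : ℝ) ^ 2 *
      ∏ j ∈ Icc 1 r, WJ s X j (α j) := hTpow.trans_le hD
  have hJpos : (0 : ℝ) < J s r X := by
    rcases (Nat.cast_nonneg (α := ℝ) (J s r X)).eq_or_lt with h | h
    · rw [← h] at hprod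
      simp at hprod
    · exact h
  have hWpos : ∀ j ∈ Icc 1 r, 0 < WJ s X j (α j) := by
    intro j hj
    rcases (WJ_nonneg s X j (α j)).eq_or_lt with h | h
    · rw [Finset.prod_eq_zero hj h.symm, mul_zero] at hprod
      exact absurd hprod (lt_irrefl _)
    · exact h
  have hlogJ : Real.log (J s r X : ℝ) ≤ C1 * (9 * (r : ℝ)) ^ 4 + e * l := by
    refine (Real.log_le_log hJpos hJ').trans (le_of_eq ?_)
    rw [Real.log_mul (Real.exp_pos _).ne' (Real.rpow_pos_of_pos (by linarith) _).ne',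
      Real.log_exp, Real.log_rpow (by linarith), hl]
    ring
  obtain ⟨A0, hA0⟩ : ∃ A0 : ℝ, A0 = Real.log (72 * r * (s : ℝ) ^ 2) := ⟨_, rfl⟩
  have hsR1 : (1 : ℝ) ≤ s := by exact_mod_cast hs1
  have h72 : (36 : ℝ) * s ^ 2 ≤ 72 * r * s ^ 2 := by
    have : (0 : ℝ) ≤ (s : ℝ) ^ 2 := by positivity
    nlinarith
  have hlogW : ∀ j ∈ Icc 1 r, Real.log (WJ s X j (α j)) ≤
      2 * (j : ℝ) * l + A0 + Real.log (1 + l) -
        (if 11 / 25 * ν ≤ j ∧ (j : ℝ) ≤ 2 / 3 * ν then (j : ℝ) * (l / 2) else 0) := by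
    intro j hj
    obtain ⟨hj1, hj2⟩ := mem_Icc.1 hj
    have hjr : (j : ℝ) ≤ r := by exact_mod_cast hj2
    have hXj : Real.log ((X : ℝ) ^ j) = j * l := by rw [Real.log_pow, hl]
    have hXj0 : (1 : ℝ) ≤ (X : ℝ) ^ j := one_le_pow₀ hXR
    split_ifs with hg
    · obtain ⟨a, Q, hQ, hcop, hα', hq1, hq2⟩ := hα j hj hg.1 hg.2
      have h3 := WJ_good hs1 hX hQ hcop hq1 hq2
      rw [← hα', ← hl] at h3
      have hjl : 0 ≤ (j : ℝ) * l := by positivity
      refine (Real.log_le_log (hWpos j hj) h3).trans ?_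
      rw [Real.log_mul (by positivity) (Real.exp_pos _).ne', Real.log_exp,
        Real.log_mul (by positivity) (by positivity)]
      have h4 : Real.log (36 * (s : ℝ) ^ 2) + Real.log (1 + 3 / 2 * (j * l)) ≤
          A0 + Real.log (1 + l) := by
        rw [hA0, ← Real.log_mul (by positivity) (by positivity),
          ← Real.log_mul (by positivity) (by positivity)]
        apply Real.log_le_log (by positivity)
        have h5 : 1 + 3 / 2 * (j * l) ≤ 2 * r * (1 + l) := by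
          have : (j : ℝ) * l ≤ r * l := mul_le_mul_of_nonneg_right hjr hl0
          nlinarith
        calc 36 * (s : ℝ) ^ 2 * (1 + 3 / 2 * (j * l)) ≤ 36 * s ^ 2 * (2 * r * (1 + l)) :=
              mul_le_mul_of_nonneg_left h5 (by positivity)
          _ = 72 * r * s ^ 2 * (1 + l) := by ring
      linarith
    · have h3 := (Pool.Agent.Y331.VK.wb s X j (α j) hs1 hX).1
      refine (Real.log_le_log (hWpos j hj) h3).trans ?_
      have h4 : (2 * ((s * X ^ j : ℕ) : ℝ) + 1) ^ 2 ≤ 72 * r * s ^ 2 * ((X : ℝ) ^ j) ^ 2 := by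
        have h5 : 2 * ((s * X ^ j : ℕ) : ℝ) + 1 ≤ 3 * s * (X : ℝ) ^ j := by
          push_cast
          have : 1 ≤ (s : ℝ) * (X : ℝ) ^ j := one_le_mul_of_one_le_of_one_le hsR1 hXj0
          linarith
        calc (2 * ((s * X ^ j : ℕ) : ℝ) + 1) ^ 2 ≤ (3 * s * (X : ℝ) ^ j) ^ 2 :=
              pow_le_pow_left₀ (by positivity) h5 2
          _ = 9 * s ^ 2 * ((X : ℝ) ^ j) ^ 2 := by ring
          _ ≤ 72 * r * s ^ 2 * ((X : ℝ) ^ j) ^ 2 := by
              apply mul_le_mul_of_nonneg_right _ (by positivity)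
              have := sq_nonneg (s : ℝ)
              linarith
      refine (Real.log_le_log (by positivity) h4).trans ?_
      rw [Real.log_mul (by positivity) (by positivity), Real.log_pow, hXj, ← hA0]
      push_cast
      linarith
  obtain ⟨G, hG⟩ : ∃ G : Finset ℕ, G = (Icc 1 r).filter fun j : ℕ =>
    11 / 25 * ν ≤ j ∧ (j : ℝ) ≤ 2 / 3 * ν := ⟨_, rfl⟩
  have hGc : 17 / 100 * ν ≤ (G.card : ℝ) := by rw [hG]; exact good_card hν hr1
  have hGs : 17 / 100 * ν * (11 / 25 * ν) * (l / 2) ≤ ∑ j ∈ G, (j : ℝ) * (l / 2) := by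
    calc 17 / 100 * ν * (11 / 25 * ν) * (l / 2) ≤ G.card * (11 / 25 * ν * (l / 2)) := by
          have : (0 : ℝ) ≤ 11 / 25 * ν * (l / 2) := by positivity
          calc 17 / 100 * ν * (11 / 25 * ν) * (l / 2) = 17 / 100 * ν * (11 / 25 * ν * (l / 2)) := by
                ring
            _ ≤ _ := mul_le_mul_of_nonneg_right hGc this
      _ = ∑ j ∈ G, 11 / 25 * ν * (l / 2) := by rw [sum_const, nsmul_eq_mul]
      _ ≤ _ := by
          refine sum_le_sum fun j hj => ?_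
          rw [hG, mem_filter] at hj
          exact mul_le_mul_of_nonneg_right hj.2.1 (by positivity)
  have hsum : ∑ j ∈ Icc 1 r, Real.log (WJ s X j (α j)) ≤
      r * (r + 1) * l + r * A0 + r * Real.log (1 + l) -
        17 / 100 * ν * (11 / 25 * ν) * (l / 2) := by
    refine (Finset.sum_le_sum hlogW).trans ?_
    rw [Finset.sum_sub_distrib, Finset.sum_add_distrib, Finset.sum_add_distrib,
      ← Finset.sum_mul, sum_two_mul, Finset.sum_const, Finset.sum_const, Nat.card_Icc,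
      ← Finset.sum_filter, ← hG]
    simp only [Nat.add_sub_cancel, nsmul_eq_mul]
    linarith
  have hlogD : ((4 * s ^ 2 : ℕ) : ℝ) * Real.log ‖TT r X α‖ ≤
      ((8 * s ^ 2 - 4 * s : ℕ) : ℝ) * l + 2 * Real.log (J s r X : ℝ) +
        ∑ j ∈ Icc 1 r, Real.log (WJ s X j (α j)) := by
    have k1 := Real.log_le_log hTpow hD
    have k2 : (0 : ℝ) < ∏ j ∈ Icc 1 r, WJ s X j (α j) := Finset.prod_pos hWpos
    rw [Real.log_mul (by positivity) k2.ne', Real.log_mul (by positivity) (by positivity),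
      Real.log_pow, Real.log_pow, Real.log_pow, Real.log_prod (fun j hj => (hWpos j hj).ne'),
      ← hl] at k1
    exact_mod_cast k1
  have hcast1 : ((4 * s ^ 2 : ℕ) : ℝ) = 4 * (9 * (r : ℝ) ^ 2) ^ 2 := by push_cast; rw [hsR]
  have hcast2 : ((8 * s ^ 2 - 4 * s : ℕ) : ℝ) =
      8 * (9 * (r : ℝ) ^ 2) ^ 2 - 4 * (9 * (r : ℝ) ^ 2) := by
    rw [Nat.cast_sub (by nlinarith)]
    push_cast
    rw [hsR]
  rw [hcast1, hcast2] at hlogD
  have hη : r * (r + 1) / 2 * (1 - 1 / (r : ℝ)) ^ (8 * r) ≤ (r : ℝ) * (r + 1) / 2 / 2937 := by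
    have k1 := pow_le_exp (r := r) (by omega)
    calc (r : ℝ) * (r + 1) / 2 * (1 - 1 / (r : ℝ)) ^ (8 * r) ≤
        (r : ℝ) * (r + 1) / 2 * (1 / 2937) := by gcongr
      _ = _ := by ring
  have hA0' : A0 ≤ 324 * (r : ℝ) ^ 3 := by
    have hr3 : (r : ℝ) ^ 2 ≤ r ^ 3 := pow_le_pow_right₀ (by linarith) (by norm_num)
    have e1 : A0 = Real.log 5832 + 5 * Real.log r := by
      rw [hA0, hsR]
      have : 72 * (r : ℝ) * (9 * (r : ℝ) ^ 2) ^ 2 = 5832 * r ^ 5 := by ring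
      rw [this, Real.log_mul (by norm_num) (by positivity), Real.log_pow]
      push_cast
      ring
    have e2 : Real.log (5832 : ℝ) ≤ 5831 := by
      have := Real.log_le_sub_one_of_pos (show (0 : ℝ) < 5832 by norm_num)
      linarith
    have e3 : Real.log r ≤ r := by
      have := Real.log_le_sub_one_of_pos hr0
      linarith
    rw [e1]
    have e4 : (8000 : ℝ) ≤ r ^ 3 := by
      calc (8000 : ℝ) = 20 ^ 3 := by norm_num
        _ ≤ (r : ℝ) ^ 3 := pow_le_pow_left₀ (by norm_num) hr20 3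
    have e5 : (r : ℝ) ≤ r ^ 3 := by
      have : (r : ℝ) ≤ r ^ 2 := by nlinarith
      linarith
    linarith
  refine fin2 (ν := ν) (l := l) (r := r)
    (η := r * (r + 1) / 2 * (1 - 1 / (r : ℝ)) ^ (8 * r)) (A0 := A0)
    (A1 := C1 * (9 * (r : ℝ)) ^ 4) (y := Real.log ‖TT r X α‖) (L1 := Real.log (1 + l)) (C := C1)
    hν hl0 hr1 hr2 hη hL1 hC1 le_rfl hA0' ?_
  have he' : e = 2 * (9 * (r : ℝ) ^ 2) - r * (r + 1) / 2 +
      r * (r + 1) / 2 * (1 - 1 / (r : ℝ)) ^ (8 * r) := by rw [he]; ring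
  rw [← he']
  linarith

end Pool.Agent.T9h58.KO
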