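import Mathlib

/-!
# The coefficients of the truncated binomial series as polynomials
-/

set_option autoImplicit false

namespace Pool.Agent.T9h58.KO

open Finset Polynomial

/-- `r! / i!` -/
def rho (r i : ℕ) : ℕ := r.factorial / i.factorial

lemma rho_mul {r i : ℕ} (h : i ≤ r) : rho r i * i.factorial = r.factorial :=
  Nat.div_mul_cancel (Nat.factorial_dvd_factorial h)

lemma rho_succ {r i : ℕ} (h : i + 1 ≤ r) : rho r i = rho r (i + 1) * (i + 1) := by
  have h1 := rho_mul (r := r) (i := i) (by omega)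
  have h2 := rho_mul h
  rw [Nat.factorial_succ] at h2
  have h3 : rho r i * i.factorial = (rho r (i + 1) * (i + 1)) * i.factorial := by
    rw [h1, ← h2]; ring
  exact Nat.eq_of_mul_eq_mul_right i.factorial_pos h3

lemma rho_pos {r i : ℕ} (h : i ≤ r) : 0 < rho r i := by
  have h1 := rho_mul h
  have h2 := r.factorial_pos
  rcases Nat.eq_zero_or_pos (rho r i) with h3 | h3
  · rw [h3] at h1; omega
  · exact h3

lemma rho_dvd {r i : ℕ} (h : i ≤ r) : rho r i ∣ r.factorial := ⟨_, (rho_mul h).symm⟩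

/-- `r!` times the truncated binomial series for `(1 + Y) ^ z` -/
noncomputable def FF (r : ℕ) (Y : ℤ) : ℤ[X] := ∑ i ∈ range r, C ((rho r i : ℤ) * Y ^ i) * descPochhammer ℤ i

lemma FF_eval (r : ℕ) (Y : ℤ) (z : ℕ) :
    (FF r Y).eval (z : ℤ) = r.factorial * ∑ i ∈ range r, (z.choose i : ℤ) * Y ^ i := by
  unfold FF
  rw [eval_finsetSum, mul_sum]
  refine sum_congr rfl fun i hi => ?_
  rw [mem_range] at hi
  rw [eval_mul, eval_C, descPochhammer_eval_eq_descFactorial, Nat.descFactorial_eq_factorial_mul_choose]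
  have h1 : (r.factorial : ℤ) = rho r i * i.factorial := by exact_mod_cast (rho_mul hi.le).symm
  rw [h1]
  push_cast
  ring

lemma FF_deg (r : ℕ) (Y : ℤ) : (FF r Y).natDegree ≤ r := by
  unfold FF
  apply natDegree_sum_le_of_forall_le
  intro i hi
  rw [mem_range] at hi
  refine (natDegree_C_mul_le _ _).trans ?_
  rw [descPochhammer_natDegree]
  exact hi.le

lemma FF_coeff (r j : ℕ) (Y : ℤ) (hj : j < r) : (FF r Y).coeff j =
    ∑ i ∈ Ico j r, (rho r i : ℤ) * Y ^ i * (descPochhammer ℤ i).coeff j := by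
  unfold FF
  rw [finsetSum_coeff]
  simp only [coeff_C_mul]
  rw [range_eq_Ico, ← sum_Ico_consecutive _ (Nat.zero_le j) hj.le]
  rw [sum_eq_zero, zero_add]
  intro i hi
  rw [mem_Ico] at hi
  rw [coeff_eq_zero_of_natDegree_lt, mul_zero]
  rw [descPochhammer_natDegree]
  exact hi.2

/-- the powers of `q` in the terms -/
lemma dvd_step {q H r j v : ℕ} (hq : q.Prime) (hm : ∀ m, 1 ≤ m → m ≤ r → ¬ q ^ H ∣ m)
    (h : q ^ v ∣ rho r j) : ∀ d, j + d ≤ r → q ^ (v + d) ∣ rho r (j + d) * q ^ (H * d) := by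
  intro d
  induction d with
  | zero => intro _; simpa using h
  | succ d ih =>
    intro hd
    have h1 := ih (by omega)
    rw [rho_succ (by omega : j + d + 1 ≤ r)] at h1
    obtain ⟨k, m', hm', he⟩ := Nat.exists_eq_pow_mul_and_not_dvd (show j + d + 1 ≠ 0 by omega) q hq.ne_one
    have hkH : k < H := by
      by_contra hc
      exact hm (j + d + 1) (by omega) (by omega) (he ▸ (pow_dvd_pow q (not_lt.1 hc)).mul_right m')
    have h2 : rho r (j + d + 1) * (j + d + 1) * q ^ (H * d) =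
        (rho r (j + d + 1) * q ^ (k + H * d)) * m' := by
      have h5 : rho r (j + d + 1) * (j + d + 1) * q ^ (H * d) =
        rho r (j + d + 1) * (q ^ k * m') * q ^ (H * d) := by
          congr 2
      rw [h5, pow_add]; ring
    rw [h2] at h1
    have hcop : (q ^ (v + d)).Coprime m' := Nat.Coprime.pow_left _ ((Nat.Prime.coprime_iff_not_dvd hq).2 hm')
    have h3 := hcop.dvd_of_dvd_mul_right h1
    have h4 := Nat.mul_dvd_mul h3 (dvd_refl (q ^ (H - k)))
    rw [← pow_add, mul_assoc, ← pow_add] at h4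
    have e1 : k + H * d + (H - k) = H * (d + 1) := by rw [Nat.mul_succ]; omega
    rw [e1] at h4
    refine (pow_dvd_pow q ?_).trans h4
    omega

/-- the coefficients -/
lemma coeff_val {q H r j u : ℕ} (hq : q.Prime) (hm : ∀ m, 1 ≤ m → m ≤ r → ¬ q ^ H ∣ m)
    (hu : ¬ q ∣ u) (hj : j < r) :
    ∃ (v : ℕ) (N' : ℤ), ¬ (q : ℤ) ∣ N' ∧ q ^ v ∣ r.factorial ∧
      (FF r ((q ^ H * u : ℕ) : ℤ)).coeff j = (q : ℤ) ^ (H * j) * ((q : ℤ) ^ v * N') := by
  obtain ⟨v, m, hmq, hv⟩ := Nat.exists_eq_pow_mul_and_not_dvd (rho_pos hj.le).ne' q hq.ne_one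
  have hqz : Prime (q : ℤ) := Nat.prime_iff_prime_int.1 hq
  have hvd : q ^ v ∣ rho r j := ⟨m, hv⟩
  have hterm : ∀ i ∈ Ico (j + 1) r, (q : ℤ) ^ (H * j + v + 1) ∣
      (rho r i : ℤ) * ((q ^ H * u : ℕ) : ℤ) ^ i * (descPochhammer ℤ i).coeff j := by
    intro i hi
    rw [mem_Ico] at hi
    obtain ⟨d, rfl⟩ : ∃ d, i = j + d := ⟨i - j, by omega⟩
    have h1 := dvd_step hq hm hvd d (by omega)
    have h2 : (q : ℤ) ^ (v + d) ∣ (rho r (j + d) : ℤ) * (q : ℤ) ^ (H * d) := by exact_mod_cast h1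
    have h3 : (q : ℤ) ^ (H * j + v + 1) ∣ (q : ℤ) ^ (H * j) * (q : ℤ) ^ (v + d) := by
      rw [← pow_add]
      exact pow_dvd_pow _ (by omega)
    refine h3.trans ?_
    obtain ⟨c, hc⟩ := h2
    refine ⟨c * (u : ℤ) ^ (j + d) * (descPochhammer ℤ (j + d)).coeff j, ?_⟩
    push_cast
    rw [mul_pow, ← pow_mul, mul_add, pow_add]
    calc (rho r (j + d) : ℤ) * ((q : ℤ) ^ (H * j) * (q : ℤ) ^ (H * d) * (u : ℤ) ^ (j + d)) *
        (descPochhammer ℤ (j + d)).coeff j =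
        (q : ℤ) ^ (H * j) * ((rho r (j + d) : ℤ) * (q : ℤ) ^ (H * d)) * (u : ℤ) ^ (j + d) *
        (descPochhammer ℤ (j + d)).coeff j := by ring
      _ = _ := by rw [hc]; ring
  obtain ⟨w, hw⟩ : (q : ℤ) ^ (H * j + v + 1) ∣ ∑ i ∈ Ico (j + 1) r,
      (rho r i : ℤ) * ((q ^ H * u : ℕ) : ℤ) ^ i * (descPochhammer ℤ i).coeff j := dvd_sum hterm
  have hlead : (descPochhammer ℤ j).coeff j = 1 := by
    have := monic_descPochhammer ℤ j
    have h2 := this.coeff_natDegree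
    rwa [descPochhammer_natDegree] at h2
  refine ⟨v, (m : ℤ) * (u : ℤ) ^ j + q * w, ?_, (hvd.trans (rho_dvd hj.le)), ?_⟩
  · intro hd
    have h1 : (q : ℤ) ∣ (m : ℤ) * (u : ℤ) ^ j := (Int.dvd_add_left (dvd_mul_right _ _)).1 hd
    rcases hqz.dvd_or_dvd h1 with h2 | h2
    · exact hmq (by exact_mod_cast h2)
    · exact hu (by exact_mod_cast hqz.dvd_of_dvd_pow h2)
  · rw [FF_coeff r j _ hj, sum_eq_sum_Ico_succ_bot hj, hw, hlead]
    have : (rho r j : ℤ) = (q : ℤ) ^ v * m := by exact_mod_cast hv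
    rw [this]
    push_cast
    rw [mul_pow, ← pow_mul]
    ring

/-- the fractions -/
lemma frac_den {q H r j u t : ℕ} (hq : q.Prime) (hm : ∀ m, 1 ≤ m → m ≤ r → ¬ q ^ H ∣ m)
    (hu : ¬ q ∣ u) (hj : j < r) (hjt : H * j ≤ t) {A : ℤ} (hA : ¬ (q : ℤ) ∣ A) :
    ∃ (a : ℤ) (Q : ℕ), 1 ≤ Q ∧ IsCoprime a (Q : ℤ) ∧
      (A : ℝ) * ((FF r ((q ^ H * u : ℕ) : ℤ)).coeff j : ℝ) / (r.factorial * (q : ℝ) ^ t) = (a : ℝ) / Q ∧
      q ^ (t - H * j) ≤ Q ∧ Q ≤ r.factorial * q ^ (t - H * j) := by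
  obtain ⟨v, N', hN', hv, hc⟩ := coeff_val hq hm hu hj
  have hqz : Prime (q : ℤ) := Nat.prime_iff_prime_int.1 hq
  have hq0 : 0 < q := hq.pos
  obtain ⟨T, hT⟩ : ∃ T, T = t - H * j := ⟨_, rfl⟩
  have ht : t = H * j + T := by omega
  rw [← hT]
  have hfac : 0 < r.factorial := r.factorial_pos
  obtain ⟨x, hx⟩ : ∃ x : ℚ, x = Rat.divInt (A * ((q : ℤ) ^ v * N')) ((r.factorial * q ^ T : ℕ) : ℤ) := ⟨_, rfl⟩
  have hDpos : 0 < r.factorial * q ^ T := by positivity
  have hden : (x.den : ℤ) ∣ ((r.factorial * q ^ T : ℕ) : ℤ) := by rw [hx]; exact Rat.den_dvd _ _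
  have hden' : x.den ∣ r.factorial * q ^ T := by exact_mod_cast hden
  refine ⟨x.num, x.den, x.den_pos, ?_, ?_, ?_, Nat.le_of_dvd hDpos hden'⟩
  · rw [Int.isCoprime_iff_gcd_eq_one]
    have := x.reduced
    rw [Nat.coprime_iff_gcd_eq_one] at this
    rw [Int.gcd, Int.natAbs_natCast]
    exact this
  · have h1 : ((x : ℚ) : ℝ) = (x.num : ℝ) / x.den := Rat.cast_def x
    rw [← h1, hx, Rat.divInt_eq_div, hc, ht]
    push_cast
    have : (q : ℝ) ≠ 0 := by positivity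
    have h2 : (r.factorial : ℝ) ≠ 0 := by positivity
    rw [pow_add]
    field_simp
  · -- the power of `q` in the denominator
    have h1 : x.num * ((r.factorial * q ^ T : ℕ) : ℤ) = (A * ((q : ℤ) ^ v * N')) * x.den := by
      have h2 : (x : ℚ) = (A * ((q : ℤ) ^ v * N') : ℤ) / ((r.factorial * q ^ T : ℕ) : ℚ) := by
        rw [hx, Rat.divInt_eq_div]
        push_cast
        rfl
      have h3 : (x : ℚ) = x.num / x.den := (Rat.num_div_den x).symm
      rw [h3] at h2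
      have h4 : ((x.den : ℕ) : ℚ) ≠ 0 := by exact_mod_cast x.den_pos.ne'
      have h5 : ((r.factorial * q ^ T : ℕ) : ℚ) ≠ 0 := by exact_mod_cast hDpos.ne'
      rw [div_eq_div_iff h4 h5] at h2
      exact_mod_cast h2
    obtain ⟨c, hc2⟩ := hv
    have h2 : (q : ℤ) ^ T ∣ A * N' * x.den := by
      have h3 : (q : ℤ) ^ v * ((q : ℤ) ^ T * (x.num * c)) = (q : ℤ) ^ v * (A * N' * x.den) := by
        have h4 : ((r.factorial * q ^ T : ℕ) : ℤ) = (q : ℤ) ^ v * c * (q : ℤ) ^ T := by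
          rw [hc2]; push_cast; ring
        rw [h4] at h1
        linear_combination h1
      have h5 : (q : ℤ) ^ v ≠ 0 := pow_ne_zero _ (by exact_mod_cast hq0.ne')
      exact ⟨x.num * c, (mul_left_cancel₀ h5 h3).symm⟩
    have hcop : IsCoprime ((q : ℤ) ^ T) (A * N') := by
      apply IsCoprime.pow_left
      rw [Prime.coprime_iff_not_dvd hqz]
      intro hd
      rcases hqz.dvd_or_dvd hd with h3 | h3
      · exact hA h3
      · exact hN' h3
    have h3 : (q : ℤ) ^ T ∣ (x.den : ℤ) := hcop.dvd_of_dvd_mul_left h2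
    have h4 : q ^ T ∣ x.den := by exact_mod_cast h3
    exact Nat.le_of_dvd x.den_pos h4

end Pool.Agent.T9h58.KO
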