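import Pool.Agent.T9h58.KO.K3
import Pool.Agent.T9h58.KO.K4
import Pool.Agent.W301.TD.ExpSum

/-!
# Exponential sums over powers modulo large prime powers: from the bilinear sums
-/

set_option autoImplicit false

namespace Pool.Agent.T9h58.KO

open Finset Polynomial
open Pool.Agent.Y957.VK (TT)
open Pool.Agent.Helper602.MK (ee)
open Pool.Agent.Helper602.MK.N_J5b (norm_ee ee_add ee_int ee_add_int)
open Pool.Agent.W301.TD.AA (one_add_pow_trunc)

/-- the coefficients of the phase -/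
noncomputable def bet (q H u t r : ℕ) (A : ℤ) (j : ℕ) : ℝ :=
  (A : ℝ) * ((FF r ((q ^ H * u : ℕ) : ℤ)).coeff j : ℝ) / (r.factorial * (q : ℝ) ^ t)

lemma phase {q H u t r : ℕ} (hq : 0 < q) (hr : 1 ≤ r) (ht : t ≤ H * r) (A : ℤ) (z : ℕ) :
    ee ((A : ℝ) * (1 + (q : ℝ) ^ H * u) ^ z / (q : ℝ) ^ t) = ee (bet q H u t r A 0) *
      Complex.exp (2 * Real.pi * Complex.I *
        ((∑ j ∈ Icc 1 r, bet q H u t r A j * (z : ℝ) ^ j : ℝ) : ℂ)) := by
  obtain ⟨K, rfl⟩ : ∃ K, r = K + 1 := ⟨r - 1, by omega⟩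
  obtain ⟨c, hc⟩ := one_add_pow_trunc (q ^ H * u) z K
  have hqR : (q : ℝ) ≠ 0 := by positivity
  obtain ⟨F, hF⟩ : ∃ F : ℤ[X], F = FF (K + 1) ((q ^ H * u : ℕ) : ℤ) := ⟨_, rfl⟩
  have hfac : ((K + 1).factorial : ℝ) ≠ 0 := by positivity
  have h1 : ((F.eval (z : ℤ) : ℤ) : ℝ) = ((K + 1).factorial : ℝ) *
      ∑ k ∈ range (K + 1), (z.choose k : ℝ) * ((q : ℝ) ^ H * u) ^ k := by
    rw [hF, FF_eval]
    push_cast
    rfl
  have h2 : ((F.eval (z : ℤ) : ℤ) : ℝ) = ∑ j ∈ range (K + 1 + 1), (F.coeff j : ℝ) * (z : ℝ) ^ j := by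
    rw [eval_eq_sum_range' (n := K + 1 + 1) (by rw [hF]; exact Nat.lt_succ_of_le (FF_deg _ _))]
    push_cast
    rfl
  have h3 : (A : ℝ) * (1 + (q : ℝ) ^ H * u) ^ z / (q : ℝ) ^ t =
      (bet q H u t (K + 1) A 0 + ∑ j ∈ Icc 1 (K + 1), bet q H u t (K + 1) A j * (z : ℝ) ^ j) +
        ((A * (q : ℤ) ^ (H * (K + 1) - t) * (u : ℤ) ^ (K + 1) * c : ℤ) : ℝ) := by
    have h4 : (1 + (q : ℝ) ^ H * u) ^ z = ∑ k ∈ range (K + 1), (z.choose k : ℝ) *
        ((q : ℝ) ^ H * u) ^ k + ((q : ℝ) ^ H * u) ^ (K + 1) * c := by exact_mod_cast hc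
    have h5 : bet q H u t (K + 1) A 0 + ∑ j ∈ Icc 1 (K + 1), bet q H u t (K + 1) A j * (z : ℝ) ^ j =
        (A : ℝ) * (∑ j ∈ range (K + 1 + 1), (F.coeff j : ℝ) * (z : ℝ) ^ j) /
          ((K + 1).factorial * (q : ℝ) ^ t) := by
      rw [range_eq_Ico, sum_eq_sum_Ico_succ_bot (by omega), mul_add, add_div, mul_sum, sum_div]
      congr 1
      · unfold bet
        rw [hF, pow_zero, mul_one]
      · rw [zero_add]
        have : Ico 1 (K + 1 + 1) = Icc 1 (K + 1) := by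
          ext i
          rw [mem_Ico, mem_Icc]
          omega
        rw [this]
        refine sum_congr rfl fun j _ => ?_
        unfold bet
        rw [hF]
        ring
    rw [h5, ← h2, h1, h4]
    have h6 : (q : ℝ) ^ (H * (K + 1)) = (q : ℝ) ^ t * (q : ℝ) ^ (H * (K + 1) - t) := by
      rw [← pow_add]
      congr 1
      omega
    push_cast
    rw [mul_pow ((q : ℝ) ^ H) (u : ℝ) (K + 1), ← pow_mul, h6]
    field_simp
  rw [h3, ee_add_int, ee_add]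
  congr 1
  unfold ee
  congr 1
  ring

lemma block {q H u t r : ℕ} (hq : 0 < q) (hr : 1 ≤ r) (ht : t ≤ H * r) (A : ℤ) (X : ℕ) :
    ∑ x ∈ Icc 1 X, ∑ y ∈ Icc 1 X, ee ((A : ℝ) * (1 + (q : ℝ) ^ H * u) ^ (x * y) / (q : ℝ) ^ t) =
      ee (bet q H u t r A 0) * TT r X (bet q H u t r A) := by
  unfold TT
  rw [mul_sum]
  refine sum_congr rfl fun x _ => ?_
  rw [mul_sum]
  refine sum_congr rfl fun y _ => ?_
  rw [phase hq hr ht A (x * y)]
  push_cast
  rfl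

lemma shift_one (f : ℕ → ℂ) (hf : ∀ n, ‖f n‖ ≤ 1) (M k : ℕ) :
    ‖∑ n ∈ range M, f n - ∑ n ∈ range M, f (n + k)‖ ≤ 2 * k := by
  induction k with
  | zero => simp
  | succ k ih =>
    have h1 : ∑ n ∈ range M, f (n + k) - ∑ n ∈ range M, f (n + (k + 1)) = f k - f (M + k) := by
      have e1 := sum_range_succ (fun n => f (n + k)) M
      have e2 := sum_range_succ' (fun n => f (n + k)) M
      simp only [zero_add] at e2
      have e3 : ∀ n, f (n + 1 + k) = f (n + (k + 1)) := fun n => by congr 1; ring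
      simp only [e3] at e2
      linear_combination e2 - e1
    have h2 : ∑ n ∈ range M, f n - ∑ n ∈ range M, f (n + (k + 1)) =
        (∑ n ∈ range M, f n - ∑ n ∈ range M, f (n + k)) + (f k - f (M + k)) := by
      rw [← h1]; ring
    rw [h2]
    have h3 : ‖f k - f (M + k)‖ ≤ 1 + 1 := (norm_sub_le _ _).trans (add_le_add (hf _) (hf _))
    refine (norm_add_le _ _).trans ?_
    push_cast
    linarith

lemma shift_all (f : ℕ → ℂ) (hf : ∀ n, ‖f n‖ ≤ 1) (M D X : ℕ) :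
    (X : ℝ) ^ 2 * ‖∑ n ∈ range M, f n‖ ≤
      ∑ n ∈ range M, ‖∑ x ∈ Icc 1 X, ∑ y ∈ Icc 1 X, f (n + D * (x * y))‖ +
        (X : ℝ) ^ 2 * (2 * (D * (X : ℝ) ^ 2)) := by
  have h1 : ∀ x ∈ Icc 1 X, ∀ y ∈ Icc 1 X,
      ‖∑ n ∈ range M, f n - ∑ n ∈ range M, f (n + D * (x * y))‖ ≤ 2 * (D * (X : ℝ) ^ 2) := by
    intro x hx y hy
    refine (shift_one f hf M _).trans ?_
    have h2 : x * y ≤ X * X := Nat.mul_le_mul (mem_Icc.1 hx).2 (mem_Icc.1 hy).2
    have h3 : ((x * y : ℕ) : ℝ) ≤ (X : ℝ) * X := by exact_mod_cast h2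
    push_cast at h3 ⊢
    have h4 := mul_le_mul_of_nonneg_left h3 (Nat.cast_nonneg D : (0 : ℝ) ≤ D)
    nlinarith
  have h2 : ((X : ℂ) ^ 2) * ∑ n ∈ range M, f n =
      ∑ x ∈ Icc 1 X, ∑ y ∈ Icc 1 X, (∑ n ∈ range M, f n - ∑ n ∈ range M, f (n + D * (x * y))) +
      ∑ n ∈ range M, ∑ x ∈ Icc 1 X, ∑ y ∈ Icc 1 X, f (n + D * (x * y)) := by
    have e1 : ∑ n ∈ range M, ∑ x ∈ Icc 1 X, ∑ y ∈ Icc 1 X, f (n + D * (x * y)) =
        ∑ x ∈ Icc 1 X, ∑ y ∈ Icc 1 X, ∑ n ∈ range M, f (n + D * (x * y)) := by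
      rw [sum_comm]
      exact sum_congr rfl fun x _ => sum_comm
    rw [e1, ← sum_add_distrib]
    simp only [← sum_add_distrib, sub_add_cancel]
    rw [sum_const, sum_const, Nat.card_Icc, Nat.add_sub_cancel, nsmul_eq_mul, nsmul_eq_mul]
    ring
  have h3 : (X : ℝ) ^ 2 * ‖∑ n ∈ range M, f n‖ = ‖((X : ℂ) ^ 2) * ∑ n ∈ range M, f n‖ := by
    rw [norm_mul, norm_pow, Complex.norm_natCast]
  rw [h3, h2, add_comm (∑ n ∈ range M, ‖_‖)]
  refine (norm_add_le _ _).trans (add_le_add ?_ (norm_sum_le _ _))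
  refine (norm_sum_le _ _).trans ?_
  refine (sum_le_sum fun x hx => (norm_sum_le _ _).trans (sum_le_sum fun y hy => h1 x hx y hy)).trans ?_
  rw [sum_const, sum_const, Nat.card_Icc, Nat.add_sub_cancel, nsmul_eq_mul, nsmul_eq_mul]
  apply le_of_eq
  ring

/-- the coefficients are good -/
lemma good_co {q H u t r : ℕ} (hq : q.Prime) (hu : ¬ q ∣ u) (hH : 1 ≤ H) (h20 : 20 * H ≤ t)
    (h1 : t ≤ r * H) (h2 : r * H ≤ t + H) (h3 : r ^ 20 ≤ q ^ H) {A : ℤ} (hA : ¬ (q : ℤ) ∣ A) :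
    GoodCo r (q ^ H) ((t : ℝ) / H) (bet q H u t r A) := by
  have hq1 : (1 : ℝ) < q := by exact_mod_cast hq.one_lt
  have hq0 : (0 : ℝ) < q := by linarith
  have hH0 : (0 : ℝ) < H := by exact_mod_cast hH
  have hlq : 0 < Real.log q := Real.log_pos hq1
  have hr20 : 20 ≤ r := by
    by_contra hc
    have : r * H ≤ 19 * H := Nat.mul_le_mul_right H (by omega)
    omega
  have hrH : r < q ^ H := by
    refine lt_of_lt_of_le ?_ h3
    calc r = r ^ 1 := (pow_one r).symm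
      _ < r ^ 20 := Nat.pow_lt_pow_right (by omega) (by norm_num)
  have hm : ∀ m, 1 ≤ m → m ≤ r → ¬ q ^ H ∣ m := by
    intro m hm1 hm2 hd
    have := Nat.le_of_dvd hm1 hd
    omega
  have hX : Real.log ((q ^ H : ℕ) : ℝ) = H * Real.log q := by
    push_cast
    rw [Real.log_pow]
  have h20R : 20 * (H : ℝ) ≤ t := by exact_mod_cast h20
  have h2R : (r : ℝ) * H ≤ t + H := by exact_mod_cast h2
  have hr0 : (0 : ℝ) < r := by exact_mod_cast (by omega : 0 < r)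
  -- the factorial
  have hfac : Real.log (r.factorial : ℝ) ≤ t / 10 * Real.log q := by
    have k1 : (r.factorial : ℝ) ≤ (r : ℝ) ^ r := by exact_mod_cast r.factorial_le_pow
    have k2 := Real.log_le_log (by positivity) k1
    rw [Real.log_pow] at k2
    have k3 : (r : ℝ) ^ 20 ≤ (q : ℝ) ^ H := by exact_mod_cast h3
    have k4 := Real.log_le_log (by positivity) k3
    rw [Real.log_pow, Real.log_pow] at k4
    push_cast at k4
    have k5 : (r : ℝ) * (20 * Real.log r) ≤ r * (H * Real.log q) :=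
      mul_le_mul_of_nonneg_left k4 hr0.le
    have k6 : (r : ℝ) * (H * Real.log q) ≤ (t + H) * Real.log q := by
      calc (r : ℝ) * (H * Real.log q) = (r * H) * Real.log q := by ring
        _ ≤ _ := mul_le_mul_of_nonneg_right h2R hlq.le
    have k7 : (t + H : ℝ) * Real.log q ≤ (21 / 20 * t) * Real.log q :=
      mul_le_mul_of_nonneg_right (by linarith) hlq.le
    have k8 : 0 ≤ (t : ℝ) * Real.log q := by positivity
    linarith
  intro j hj hj1 hj2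
  obtain ⟨g1, g2⟩ := mem_Icc.1 hj
  have hj1' : 11 / 25 * (t : ℝ) ≤ j * H := by
    rw [← mul_div_assoc, div_le_iff₀ hH0] at hj1
    exact hj1
  have hj2' : (j : ℝ) * H ≤ 2 / 3 * t := by
    rw [← mul_div_assoc, le_div_iff₀ hH0] at hj2
    exact hj2
  have ht0 : (0 : ℝ) < t := by linarith
  have hjt : H * j ≤ t := by
    have : (H : ℝ) * j ≤ t := by linarith [mul_comm (H : ℝ) j]
    exact_mod_cast this
  have hjr : j < r := by
    by_contra hc
    have hc' : r ≤ j := not_lt.1 hc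
    have h4 : r * H ≤ j * H := Nat.mul_le_mul_right H hc'
    have h5 : (t : ℝ) ≤ j * H := by exact_mod_cast h1.trans h4
    linarith
  obtain ⟨a, Q, hQ, hcop, he, hq1', hq2'⟩ := frac_den hq hm hu hjr hjt hA
  have hTR : ((t - H * j : ℕ) : ℝ) = t - H * j := by
    rw [Nat.cast_sub hjt]
    push_cast
    ring
  refine ⟨a, Q, hQ, hcop, he, ?_, ?_⟩
  · rw [hX]
    have k1 : (q : ℝ) ^ (t - H * j) ≤ Q := by exact_mod_cast hq1'
    have k2 := Real.log_le_log (by positivity) k1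
    rw [Real.log_pow, hTR] at k2
    have k3 : 1 / 2 * ((j : ℝ) * (H * Real.log q)) = (1 / 2 * (j * H)) * Real.log q := by ring
    rw [k3]
    refine le_trans (mul_le_mul_of_nonneg_right ?_ hlq.le) k2
    linarith [mul_comm (H : ℝ) j]
  · rw [hX]
    have k1 : (Q : ℝ) ≤ r.factorial * (q : ℝ) ^ (t - H * j) := by exact_mod_cast hq2'
    have hQ0 : (0 : ℝ) < Q := by exact_mod_cast hQ
    have k2 := Real.log_le_log hQ0 k1
    rw [Real.log_mul (by positivity) (by positivity), Real.log_pow, hTR] at k2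
    have k3 : 3 / 2 * ((j : ℝ) * (H * Real.log q)) = (3 / 2 * (j * H)) * Real.log q := by ring
    rw [k3]
    have k4 : (t / 10 + (t - H * j)) * Real.log q ≤ (3 / 2 * ((j : ℝ) * H)) * Real.log q := by
      apply mul_le_mul_of_nonneg_right _ hlq.le
      linarith [mul_comm (H : ℝ) j]
    linarith

/-- **Korobov's bound**, in terms of the parameters -/
theorem kor_raw : ∃ C : ℝ, 0 ≤ C ∧ ∀ {q p g s : ℕ}, q.Prime → ¬ q ∣ p →
    (∀ i, ∃ w, ¬ q ∣ w ∧ p ^ (g * q ^ i) = 1 + q ^ (s + i) * w) →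
    ∀ H t r : ℕ, s ≤ H → 1 ≤ H → 20 * H ≤ t → t ≤ r * H → r * H ≤ t + H → r ^ 20 ≤ q ^ H →
    ∀ A : ℤ, ¬ (q : ℤ) ∣ A → ∀ M : ℕ,
    ‖∑ n ∈ range M, ee ((A : ℝ) * (p : ℝ) ^ n / (q : ℝ) ^ t)‖ ≤
      M * Real.exp (C + Real.log (1 + H * Real.log q) - H * Real.log q / (20000 * ((t : ℝ) / H) ^ 2)) +
        2 * ((g * q ^ (H - s) : ℕ) * ((q : ℝ) ^ H) ^ 2) := by
  obtain ⟨C, hC, hT⟩ := tt_bound
  refine ⟨C, hC, fun {q p g s} hq hp hw H t r hsH hH h20 h1 h2 h3 A hA M => ?_⟩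
  have hq0 : (0 : ℝ) < q := by exact_mod_cast hq.pos
  have hH0 : (0 : ℝ) < H := by exact_mod_cast hH
  obtain ⟨u, hu, he⟩ := hw (H - s)
  have hHs : s + (H - s) = H := by omega
  rw [hHs] at he
  obtain ⟨D, hD⟩ : ∃ D, D = g * q ^ (H - s) := ⟨_, rfl⟩
  rw [← hD] at he ⊢
  have hr1 : 1 ≤ r := by
    rcases Nat.eq_zero_or_pos r with h | h
    · subst h
      omega
    · exact h
  have htr : t ≤ H * r := by rw [mul_comm]; exact h1
  have hqz : Prime (q : ℤ) := Nat.prime_iff_prime_int.1 hq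
  have hsh := shift_all (fun n => ee ((A : ℝ) * (p : ℝ) ^ n / (q : ℝ) ^ t))
    (fun n => (norm_ee _).le) M D (q ^ H)
  have hX0 : (0 : ℝ) < ((q ^ H : ℕ) : ℝ) := by exact_mod_cast pow_pos hq.pos H
  have hinner : ∀ n ∈ range M, ‖∑ x ∈ Icc 1 (q ^ H), ∑ y ∈ Icc 1 (q ^ H),
      ee ((A : ℝ) * (p : ℝ) ^ (n + D * (x * y)) / (q : ℝ) ^ t)‖ ≤ ((q ^ H : ℕ) : ℝ) ^ 2 *
      Real.exp (C + Real.log (1 + H * Real.log q) - H * Real.log q / (20000 * ((t : ℝ) / H) ^ 2)) := by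
    intro n _
    have e1 : ∀ x y : ℕ, (A : ℝ) * (p : ℝ) ^ (n + D * (x * y)) / (q : ℝ) ^ t =
        ((A * (p : ℤ) ^ n : ℤ) : ℝ) * (1 + (q : ℝ) ^ H * u) ^ (x * y) / (q : ℝ) ^ t := by
      intro x y
      have : (p : ℝ) ^ D = 1 + (q : ℝ) ^ H * u := by exact_mod_cast he
      rw [pow_add, pow_mul, this]
      push_cast
      ring
    simp only [e1]
    have hA' : ¬ (q : ℤ) ∣ A * (p : ℤ) ^ n := by
      intro hd
      rcases hqz.dvd_or_dvd hd with h4 | h4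
      · exact hA h4
      · exact hp (by exact_mod_cast hqz.dvd_of_dvd_pow h4)
    rw [block hq.pos hr1 htr, norm_mul, norm_ee, one_mul]
    have key := hT r (q ^ H) ((t : ℝ) / H) (bet q H u t r (A * (p : ℤ) ^ n))
      (by rw [le_div_iff₀ hH0]; exact_mod_cast h20)
      (by rw [div_le_iff₀ hH0]; exact_mod_cast h1)
      (by
        have : (r : ℝ) * H ≤ t + H := by exact_mod_cast h2
        have h4 : (r : ℝ) ≤ (t + H) / H := by rw [le_div_iff₀ hH0]; exact this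
        rwa [add_div, div_self hH0.ne'] at h4)
      (Nat.one_le_pow _ _ hq.pos) (good_co hq hu hH h20 h1 h2 h3 hA')
    have hX : Real.log ((q ^ H : ℕ) : ℝ) = H * Real.log q := by
      push_cast
      rw [Real.log_pow]
    rw [hX] at key
    exact key
  have h4 := hsh.trans (add_le_add (sum_le_sum hinner) le_rfl)
  rw [sum_const, card_range, nsmul_eq_mul] at h4
  have h5 : ((q ^ H : ℕ) : ℝ) ^ 2 * ‖∑ n ∈ range M, ee ((A : ℝ) * (p : ℝ) ^ n / (q : ℝ) ^ t)‖ ≤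
      ((q ^ H : ℕ) : ℝ) ^ 2 * (M * Real.exp (C + Real.log (1 + H * Real.log q) -
        H * Real.log q / (20000 * ((t : ℝ) / H) ^ 2)) + 2 * (D * ((q ^ H : ℕ) : ℝ) ^ 2)) := by
    refine h4.trans (le_of_eq ?_)
    ring
  have h6 := le_of_mul_le_mul_left h5 (by positivity)
  push_cast at h6
  exact h6

end Pool.Agent.T9h58.KO
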