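import Pool.Agent.T9h58.KO.K5

/-!
# Exponential sums over powers modulo large prime powers: Korobov's bound
-/

set_option autoImplicit false

namespace Pool.Agent.T9h58.KO

open Finset Filter Topology
open Pool.Agent.Helper602.MK (ee)

lemma ev_pow {a b c : ℝ} (hab : a < b) (hc : 0 < c) (K : ℝ) :
    ∀ᶠ L : ℝ in atTop, K * L ^ a ≤ c * L ^ b := by
  have h1 : Tendsto (fun L : ℝ => L ^ (b - a)) atTop atTop := tendsto_rpow_atTop (by linarith)
  filter_upwards [h1.eventually_ge_atTop (K / c), eventually_gt_atTop 0] with L h2 h3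
  rw [div_le_iff₀ hc] at h2
  have h4 : L ^ b = L ^ a * L ^ (b - a) := by rw [← Real.rpow_add h3]; congr 1; ring
  have h5 : 0 ≤ L ^ a := Real.rpow_nonneg h3.le _
  rw [h4]
  calc K * L ^ a ≤ (L ^ (b - a) * c) * L ^ a := mul_le_mul_of_nonneg_right h2 h5
    _ = _ := by ring

lemma ev_log {b c : ℝ} (hb : 0 < b) (hc : 0 < c) : ∀ᶠ L : ℝ in atTop, Real.log L ≤ c * L ^ b := by
  have h1 := (isLittleO_log_rpow_atTop hb).bound hc
  filter_upwards [h1, eventually_ge_atTop 1] with L h2 h3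
  rw [Real.norm_eq_abs, Real.norm_eq_abs, abs_of_nonneg (Real.log_nonneg h3),
    abs_of_nonneg (Real.rpow_nonneg (by linarith) _)] at h2
  exact h2

/-- **Korobov's bound**: exponential sums over powers modulo `q ^ t`, `t ≤ (log M) ^ (1 + δ)`, `δ < 1 / 2` -/
theorem korobov {q p : ℕ} (hq : q.Prime) (hp2 : 2 ≤ p) (hp : ¬ q ∣ p) {δ₀ δ β : ℝ} (hδ₀ : 0 < δ₀)
    (hδ : 0 < δ) (hβ : 0 < β) (hδβ : 2 * δ + β < 1) :
    ∃ M0 : ℕ, ∀ M : ℕ, M0 ≤ M → ∀ t : ℕ, δ₀ * Real.log M ≤ t → (t : ℝ) ≤ (Real.log M) ^ (1 + δ) →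
      ∀ A : ℤ, ¬ (q : ℤ) ∣ A →
      ‖∑ n ∈ range M, ee ((A : ℝ) * (p : ℝ) ^ n / (q : ℝ) ^ t)‖ ≤
        M * Real.exp (-(Real.log M) ^ β) := by
  obtain ⟨C, hC, hraw⟩ := kor_raw
  obtain ⟨s, hs⟩ := Pool.Agent.W301.TD.AA.exists_tower hq hp2 hp
  obtain ⟨g, hg⟩ : ∃ g, g = (q ^ 2).totient := ⟨_, rfl⟩
  rw [← hg] at hs
  have hg1 : 1 ≤ g := by rw [hg]; exact Nat.totient_pos.2 (pow_pos hq.pos 2)
  have hg0 : (0 : ℝ) < g := by exact_mod_cast hg1
  have hq1 : (1 : ℝ) < q := by exact_mod_cast hq.one_lt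
  have hq0 : (0 : ℝ) < q := by linarith
  obtain ⟨lq, hlqd⟩ : ∃ lq : ℝ, lq = Real.log q := ⟨_, rfl⟩
  have hlq : 0 < lq := by rw [hlqd]; exact Real.log_pos hq1
  obtain ⟨θ, hθd⟩ : ∃ θ : ℝ, θ = min (δ₀ / 20) (1 / (8 * lq)) := ⟨_, rfl⟩
  have hθ : 0 < θ := by rw [hθd]; exact lt_min (by positivity) (by positivity)
  have hθ1 : θ ≤ δ₀ / 20 := by rw [hθd]; exact min_le_left _ _
  have hθ2 : θ * lq ≤ 1 / 8 := by
    have : θ ≤ 1 / (8 * lq) := by rw [hθd]; exact min_le_right _ _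
    rw [le_div_iff₀ (by positivity)] at this
    linarith
  obtain ⟨c, hcd⟩ : ∃ c : ℝ, c = θ ^ 3 * lq / 160000 := ⟨_, rfl⟩
  have hc : 0 < c := by rw [hcd]; positivity
  -- facts for large `L`
  have hev : ∀ᶠ L : ℝ in atTop, (2 / θ ≤ L ∧ 1 ≤ L ∧ 2 * (s + 1) / θ ≤ L) ∧
      20 * Real.log (3 / θ * L ^ δ) ≤ θ * L / 2 * lq ∧
      L ^ β + C + Real.log (1 + L) + Real.log 2 ≤ c * L ^ (1 - 2 * δ) ∧
      Real.log (4 * g) + 3 / 8 * L ≤ L - L ^ β ∧ 1 ≤ 1 / θ * L ^ δ := by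
    have a1 := eventually_ge_atTop (2 / θ)
    have a2 := eventually_ge_atTop (1 : ℝ)
    have a3 := eventually_ge_atTop (2 * ((s : ℝ) + 1) / θ)
    have b1 := ev_pow (a := 0) (b := 1) (c := θ * lq / 80) one_pos (by positivity) (Real.log (3 / θ))
    have b2 := ev_log (b := 1) (c := θ * lq / 80 / δ) one_pos (by positivity)
    have d1 := ev_pow (a := β) (b := 1 - 2 * δ) (c := c / 4) (by linarith) (by positivity) 1
    have d2 := ev_pow (a := 0) (b := 1 - 2 * δ) (c := c / 4) (by linarith) (by positivity)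
      (C + 2 * Real.log 2)
    have d3 := ev_log (b := 1 - 2 * δ) (c := c / 4) (by linarith) (by positivity)
    have f1 := ev_pow (a := 0) (b := 1) (c := 1 / 4) one_pos (by norm_num) (Real.log (4 * g))
    have f2 := ev_pow (a := β) (b := 1) (c := 1 / 4) (by linarith) (by norm_num) 1
    have h1 := ev_pow (a := 0) (b := δ) (c := 1 / θ) hδ (by positivity) 1
    filter_upwards [a1, a2, a3, b1, b2, d1, d2, d3, f1, f2, h1] with L a1 a2 a3 b1 b2 d1 d2 d3 f1 f2 h1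
    rw [Real.rpow_zero, Real.rpow_one] at b1 f1
    rw [Real.rpow_one] at b2 f2
    rw [Real.rpow_zero] at d2 h1
    have hL0 : 0 < L := by linarith
    have hLδ : 0 < L ^ δ := Real.rpow_pos_of_pos hL0 _
    have hLb : 0 ≤ c * L ^ (1 - 2 * δ) := by positivity
    refine ⟨⟨a1, a2, a3⟩, ?_, ?_, ?_, ?_⟩
    · rw [Real.log_mul (by positivity) hLδ.ne', Real.log_rpow hL0]
      have e1 : δ * Real.log L ≤ δ * (θ * lq / 80 / δ * L) := mul_le_mul_of_nonneg_left b2 hδ.le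
      have e2 : δ * (θ * lq / 80 / δ * L) = θ * lq / 80 * L := by field_simp
      rw [e2] at e1
      linarith
    · have e1 : Real.log (1 + L) ≤ Real.log 2 + Real.log L := by
        rw [← Real.log_mul (by norm_num) hL0.ne']
        exact Real.log_le_log (by linarith) (by linarith)
      linarith
    · linarith
    · linarith
  have hlog : Tendsto (fun M : ℕ => Real.log (M : ℝ)) atTop atTop :=
    Real.tendsto_log_atTop.comp tendsto_natCast_atTop_atTop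
  obtain ⟨M0, hM0⟩ := eventually_atTop.1 ((hlog.eventually hev).and (eventually_ge_atTop 1))
  refine ⟨M0, fun M hM t ht1 ht2 A hA => ?_⟩
  obtain ⟨⟨⟨a1, a2, a3⟩, e1, e2, e3, e4⟩, hM1⟩ := hM0 M hM
  have hM0' : (0 : ℝ) < M := by exact_mod_cast hM1
  obtain ⟨L, hLd⟩ : ∃ L : ℝ, L = Real.log M := ⟨_, rfl⟩
  rw [← hLd] at a1 a2 a3 e1 e2 e3 e4 ht1 ht2 ⊢
  have hL0 : 0 < L := by linarith
  have hML : (M : ℝ) = Real.exp L := by rw [hLd, Real.exp_log hM0']
  -- the parameters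
  obtain ⟨H, hHd⟩ : ∃ H : ℕ, H = ⌊θ * L⌋₊ := ⟨_, rfl⟩
  have hH1 : (H : ℝ) ≤ θ * L := by rw [hHd]; exact Nat.floor_le (by positivity)
  have hH2 : θ * L < H + 1 := by rw [hHd]; exact Nat.lt_floor_add_one _
  have ha1 : 2 ≤ θ * L := by rw [div_le_iff₀ hθ] at a1; linarith
  have ha3 : 2 * ((s : ℝ) + 1) ≤ θ * L := by rw [div_le_iff₀ hθ] at a3; linarith
  have hH3 : θ * L / 2 ≤ H := by linarith
  have hHpos : (0 : ℝ) < H := by linarith
  have hHN : 1 ≤ H := by exact_mod_cast hHpos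
  have hsH : s ≤ H := by
    have : (s : ℝ) ≤ H := by linarith
    exact_mod_cast this
  have h20 : 20 * H ≤ t := by
    have h1 : 20 * (H : ℝ) ≤ t := by
      have : 20 * (θ * L) ≤ δ₀ * L := by
        calc 20 * (θ * L) = (20 * θ) * L := by ring
          _ ≤ δ₀ * L := mul_le_mul_of_nonneg_right (by linarith) hL0.le
      linarith
    exact_mod_cast h1
  obtain ⟨r, hrd⟩ : ∃ r : ℕ, r = (t + H - 1) / H := ⟨_, rfl⟩
  have hdm := Nat.div_add_mod (t + H - 1) H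
  have hml := Nat.mod_lt (t + H - 1) hHN
  rw [← hrd] at hdm
  have h1 : t ≤ r * H := by
    rw [mul_comm]
    omega
  have h2 : r * H ≤ t + H := by
    rw [mul_comm]
    omega
  -- the size of `t / H`
  have hν : (t : ℝ) / H ≤ 2 / θ * L ^ δ := by
    rw [div_le_iff₀ hHpos]
    calc (t : ℝ) ≤ L ^ (1 + δ) := ht2
      _ = L ^ δ * L := by rw [add_comm, Real.rpow_add_one hL0.ne']
      _ = 2 / θ * L ^ δ * (θ * L / 2) := by field_simp
      _ ≤ 2 / θ * L ^ δ * H := mul_le_mul_of_nonneg_left hH3 (by positivity)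
  have hrν : (r : ℝ) ≤ 3 / θ * L ^ δ := by
    have h3 : (r : ℝ) * H ≤ t + H := by exact_mod_cast h2
    have h4 : (r : ℝ) ≤ (t + H) / H := by rw [le_div_iff₀ hHpos]; exact h3
    rw [add_div, div_self hHpos.ne'] at h4
    have h5 : 3 / θ * L ^ δ = 2 / θ * L ^ δ + 1 / θ * L ^ δ := by ring
    rw [h5]
    linarith
  have hr0 : (0 : ℝ) < r := by
    have : 0 < r * H := by omega
    exact_mod_cast Nat.pos_of_mul_pos_right this
  have h3 : r ^ 20 ≤ q ^ H := by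
    have h4 : (r : ℝ) ^ 20 ≤ (q : ℝ) ^ H := by
      rw [← Real.log_le_log_iff (by positivity) (by positivity), Real.log_pow, Real.log_pow, ← hlqd]
      push_cast
      have h5 : Real.log r ≤ Real.log (3 / θ * L ^ δ) := Real.log_le_log hr0 hrν
      have h6 : θ * L / 2 * lq ≤ H * lq := mul_le_mul_of_nonneg_right hH3 hlq.le
      linarith
    exact_mod_cast h4
  have key := hraw hq hp hs H t r hsH hHN h20 h1 h2 h3 A hA M
  refine key.trans ?_
  rw [← hlqd]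
  -- the first term
  have hHlq : H * lq ≤ 1 / 8 * L := by
    calc (H : ℝ) * lq ≤ θ * L * lq := mul_le_mul_of_nonneg_right hH1 hlq.le
      _ = (θ * lq) * L := by ring
      _ ≤ 1 / 8 * L := mul_le_mul_of_nonneg_right hθ2 hL0.le
  have hlog1 : Real.log (1 + H * lq) ≤ Real.log (1 + L) := by
    apply Real.log_le_log (by positivity)
    linarith
  have hsave : c * L ^ (1 - 2 * δ) ≤ H * lq / (20000 * ((t : ℝ) / H) ^ 2) := by
    have ht0 : 0 < (t : ℝ) / H := by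
      apply div_pos _ hHpos
      have : (20 : ℝ) * H ≤ t := by exact_mod_cast h20
      linarith
    rw [le_div_iff₀ (by positivity)]
    have h5 : ((t : ℝ) / H) ^ 2 ≤ (2 / θ * L ^ δ) ^ 2 := pow_le_pow_left₀ ht0.le hν 2
    have h6 : c * L ^ (1 - 2 * δ) * (20000 * ((t : ℝ) / H) ^ 2) ≤
        c * L ^ (1 - 2 * δ) * (20000 * (2 / θ * L ^ δ) ^ 2) := by
      apply mul_le_mul_of_nonneg_left _ (by positivity)
      linarith
    refine h6.trans ?_
    have h7 : L ^ (1 - 2 * δ) * (L ^ δ) ^ 2 = L := by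
      rw [← Real.rpow_natCast, ← Real.rpow_mul hL0.le, ← Real.rpow_add hL0]
      have : 1 - 2 * δ + δ * ((2 : ℕ) : ℝ) = 1 := by push_cast; ring
      rw [this, Real.rpow_one]
    have h8 : c * L ^ (1 - 2 * δ) * (20000 * (2 / θ * L ^ δ) ^ 2) = θ * L / 2 * lq := by
      have : c * L ^ (1 - 2 * δ) * (20000 * (2 / θ * L ^ δ) ^ 2) =
          c * (80000 / θ ^ 2) * (L ^ (1 - 2 * δ) * (L ^ δ) ^ 2) := by
        field_simp
        ring
      rw [this, h7, hcd]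
      field_simp
      ring
    rw [h8]
    exact mul_le_mul_of_nonneg_right hH3 hlq.le
  have hfirst : (M : ℝ) * Real.exp (C + Real.log (1 + H * lq) - H * lq / (20000 * ((t : ℝ) / H) ^ 2)) ≤
      M * Real.exp (-L ^ β) / 2 := by
    have h5 : C + Real.log (1 + H * lq) - H * lq / (20000 * ((t : ℝ) / H) ^ 2) ≤
        -L ^ β - Real.log 2 := by linarith
    have h6 := Real.exp_le_exp.2 h5
    rw [Real.exp_sub (-L ^ β) (Real.log 2), Real.exp_log (by norm_num)] at h6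
    calc _ ≤ (M : ℝ) * (Real.exp (-L ^ β) / 2) := mul_le_mul_of_nonneg_left h6 hM0'.le
      _ = _ := by ring
  -- the second term
  have hqH : (q : ℝ) ^ H = Real.exp (H * lq) := by
    rw [hlqd, mul_comm, Real.exp_mul, Real.exp_log hq0, Real.rpow_natCast]
  have hqHs : (q : ℝ) ^ (H - s) ≤ (q : ℝ) ^ H := pow_le_pow_right₀ hq1.le (Nat.sub_le _ _)
  have hsecond : 2 * (((g * q ^ (H - s) : ℕ) : ℝ) * ((q : ℝ) ^ H) ^ 2) ≤ M * Real.exp (-L ^ β) / 2 := by
    have h5 : 2 * (((g * q ^ (H - s) : ℕ) : ℝ) * ((q : ℝ) ^ H) ^ 2) ≤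
        2 * g * ((q : ℝ) ^ H) ^ 3 := by
      push_cast
      have : (g : ℝ) * (q : ℝ) ^ (H - s) * ((q : ℝ) ^ H) ^ 2 ≤ g * (q : ℝ) ^ H * ((q : ℝ) ^ H) ^ 2 := by
        gcongr
      calc 2 * ((g : ℝ) * (q : ℝ) ^ (H - s) * ((q : ℝ) ^ H) ^ 2) ≤
            2 * (g * (q : ℝ) ^ H * ((q : ℝ) ^ H) ^ 2) := by linarith
        _ = _ := by ring
    refine h5.trans ?_
    rw [hqH, ← Real.exp_nat_mul]
    have h6 : Real.exp ((3 : ℕ) * (H * lq)) ≤ Real.exp (3 / 8 * L) := by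
      apply Real.exp_le_exp.2
      push_cast
      linarith
    have h7 : 4 * g * Real.exp (3 / 8 * L) ≤ Real.exp (L - L ^ β) := by
      rw [← Real.exp_log (show (0 : ℝ) < 4 * g by positivity), ← Real.exp_add]
      exact Real.exp_le_exp.2 e3
    have h8 : (M : ℝ) * Real.exp (-L ^ β) = Real.exp (L - L ^ β) := by
      rw [hML, ← Real.exp_add]
      congr 1
    rw [h8]
    have h9 : 2 * (g : ℝ) * Real.exp ((3 : ℕ) * (H * lq)) ≤ 2 * g * Real.exp (3 / 8 * L) :=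
      mul_le_mul_of_nonneg_left h6 (by positivity)
    linarith
  linarith

end Pool.Agent.T9h58.KO
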